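import Pool.Agent.H96.OT.Defs

set_option autoImplicit false

open MeasureTheory
open scoped ENNReal

namespace Pool.Agent.H96.OT

/-- height at abscissa `t` of the line through `x` and `y` -/
noncomputable def ht (t : ℝ) (x y : Pl) : ℝ := x.2 + (t - x.1) * ((y.2 - x.2) / (y.1 - x.1))

theorem cost_nonneg (x y : Pl) : 0 ≤ cost x y := Real.sqrt_nonneg _

theorem tri_lt {l r s s' : ℝ} (hl : 0 < l) (hr : 0 < r) (hs : s ≠ s') :
    Real.sqrt ((l + r) ^ 2 + (s * l + s' * r) ^ 2)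
      < l * Real.sqrt (1 + s ^ 2) + r * Real.sqrt (1 + s' ^ 2) := by
  have hA : 0 < 1 + s ^ 2 := by positivity
  have hB : 0 < 1 + s' ^ 2 := by positivity
  have hA2 : Real.sqrt (1 + s ^ 2) ^ 2 = 1 + s ^ 2 := Real.sq_sqrt hA.le
  have hB2 : Real.sqrt (1 + s' ^ 2) ^ 2 = 1 + s' ^ 2 := Real.sq_sqrt hB.le
  have hAB : 1 + s * s' < Real.sqrt (1 + s ^ 2) * Real.sqrt (1 + s' ^ 2) := by
    rw [← Real.sqrt_mul hA.le]
    apply Real.lt_sqrt_of_sq_lt
    have : 0 < (s - s') ^ 2 := by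
      have : s - s' ≠ 0 := sub_ne_zero.mpr hs
      positivity
    nlinarith
  have hpos : 0 < l * Real.sqrt (1 + s ^ 2) + r * Real.sqrt (1 + s' ^ 2) := by
    have := Real.sqrt_pos.mpr hA
    have := Real.sqrt_pos.mpr hB
    positivity
  rw [Real.sqrt_lt' hpos]
  have e : (l * Real.sqrt (1 + s ^ 2) + r * Real.sqrt (1 + s' ^ 2)) ^ 2
      = l ^ 2 * Real.sqrt (1 + s ^ 2) ^ 2 + r ^ 2 * Real.sqrt (1 + s' ^ 2) ^ 2
        + 2 * (l * r) * (Real.sqrt (1 + s ^ 2) * Real.sqrt (1 + s' ^ 2)) := by ring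
  rw [e, hA2, hB2]
  have hlr : 0 < l * r := by positivity
  nlinarith

theorem cost_line {l r s ζ t : ℝ} (hl : 0 < l) (hr : 0 < r) :
    cost (t - l, ζ - s * l) (t + r, ζ + s * r)
      = l * Real.sqrt (1 + s ^ 2) + r * Real.sqrt (1 + s ^ 2) := by
  have e : (t - l - (t + r)) ^ 2 + (ζ - s * l - (ζ + s * r)) ^ 2 = (l + r) ^ 2 * (1 + s ^ 2) := by
    ring
  simp only [cost]
  rw [e, Real.sqrt_mul (by positivity), Real.sqrt_sq (by positivity)]
  ring

theorem cost_cross {l r s s' ζ t : ℝ} (hl : 0 < l) (hr : 0 < r) (hs : s ≠ s') :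
    cost (t - l, ζ - s * l) (t + r, ζ + s' * r)
      < l * Real.sqrt (1 + s ^ 2) + r * Real.sqrt (1 + s' ^ 2) := by
  have e : (t - l - (t + r)) ^ 2 + (ζ - s * l - (ζ + s' * r)) ^ 2
      = (l + r) ^ 2 + (s * l + s' * r) ^ 2 := by ring
  simp only [cost]
  rw [e]
  exact tri_lt hl hr hs

/-- two crossing segments can be uncrossed with a gain -/
theorem swap_lt {x x' y y' : Pl} (hx : x.1 ≤ 1) (hx' : x'.1 ≤ 1) (hy : 2 ≤ y.1) (hy' : 2 ≤ y'.1)
    (h1 : ht 1 x y < ht 1 x' y') (h2 : ht 2 x' y' < ht 2 x y) :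
    cost x y' + cost x' y < cost x y + cost x' y' := by
  set s := (y.2 - x.2) / (y.1 - x.1) with hs
  set s' := (y'.2 - x'.2) / (y'.1 - x'.1) with hs'
  have hd : 0 < y.1 - x.1 := by linarith
  have hd' : 0 < y'.1 - x'.1 := by linarith
  have e1 : ∀ t, ht t x y = x.2 + (t - x.1) * s := fun t => rfl
  have e2 : ∀ t, ht t x' y' = x'.2 + (t - x'.1) * s' := fun t => rfl
  rw [e1, e2] at h1 h2
  have hss : s' < s := by nlinarith
  have hds : 0 < s - s' := by linarith
  -- crossing abscissa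
  set t := 1 + ((x'.2 + (1 - x'.1) * s') - (x.2 + (1 - x.1) * s)) / (s - s') with ht
  have ht1 : 1 < t := by
    rw [ht]
    have : 0 < ((x'.2 + (1 - x'.1) * s') - (x.2 + (1 - x.1) * s)) / (s - s') := by
      apply div_pos _ hds
      linarith
    linarith
  have ht2 : t < 2 := by
    rw [ht]
    have : ((x'.2 + (1 - x'.1) * s') - (x.2 + (1 - x.1) * s)) / (s - s') < 1 := by
      rw [div_lt_one hds]
      linarith
    linarith
  have hζ : x.2 + (t - x.1) * s = x'.2 + (t - x'.1) * s' := by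
    have : (t - 1) * (s - s') = (x'.2 + (1 - x'.1) * s') - (x.2 + (1 - x.1) * s) := by
      rw [ht, add_sub_cancel_left, div_mul_cancel₀ _ hds.ne']
    linarith
  set ζ := x.2 + (t - x.1) * s with hζdef
  have hl : 0 < t - x.1 := by linarith
  have hl' : 0 < t - x'.1 := by linarith
  have hr : 0 < y.1 - t := by linarith
  have hr' : 0 < y'.1 - t := by linarith
  have ex : x = (t - (t - x.1), ζ - s * (t - x.1)) := by
    apply Prod.ext
    · simp
    · simp only [hζdef]; ring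
  have ex' : x' = (t - (t - x'.1), ζ - s' * (t - x'.1)) := by
    apply Prod.ext
    · simp
    · simp only [hζ]; ring
  have ey : y = (t + (y.1 - t), ζ + s * (y.1 - t)) := by
    apply Prod.ext
    · simp
    · have : s * (y.1 - x.1) = y.2 - x.2 := by rw [hs]; field_simp
      simp only [hζdef]
      linarith
  have ey' : y' = (t + (y'.1 - t), ζ + s' * (y'.1 - t)) := by
    apply Prod.ext
    · simp
    · have : s' * (y'.1 - x'.1) = y'.2 - x'.2 := by rw [hs']; field_simp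
      simp only [hζ]
      linarith
  have c1 := cost_line (s := s) (ζ := ζ) (t := t) hl hr
  have c2 := cost_line (s := s') (ζ := ζ) (t := t) hl' hr'
  have c3 := cost_cross (s := s) (s' := s') (ζ := ζ) (t := t) hl hr' hss.ne'
  have c4 := cost_cross (s := s') (s' := s) (ζ := ζ) (t := t) hl' hr hss.ne
  rw [← ex, ← ey] at c1
  rw [← ex', ← ey'] at c2
  rw [← ex, ← ey'] at c3
  rw [← ex', ← ey] at c4
  rw [c1, c2]
  linarith

/-- `σ` is an optimal assignment of the points `x i` to the points `y j` -/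
def IsOptPerm {n : ℕ} (x y : Fin n → Pl) (σ : Equiv.Perm (Fin n)) : Prop :=
  ∀ τ : Equiv.Perm (Fin n), ∑ i, cost (x i) (y (σ i)) ≤ ∑ i, cost (x i) (y (τ i))

/-- the pairs `w i` are in the same order (from bottom to top) at abscissa `1` and at
abscissa `2` -/
def SameOrder {n : ℕ} (w : Fin n → Pl × Pl) : Prop :=
  ∀ i j, 0 ≤ (ht 1 (w i).1 (w i).2 - ht 1 (w j).1 (w j).2)
    * (ht 2 (w i).1 (w i).2 - ht 2 (w j).1 (w j).2)

theorem IsOptPerm.sameOrder {n : ℕ} {x y : Fin n → Pl} {σ : Equiv.Perm (Fin n)}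
    (h : IsOptPerm x y σ) (hx : ∀ i, (x i).1 ≤ 1) (hy : ∀ i, 2 ≤ (y i).1) :
    SameOrder (fun i => (x i, y (σ i))) := by
  -- crossing pairs are impossible
  have key : ∀ i j, ht 1 (x i) (y (σ i)) < ht 1 (x j) (y (σ j)) →
      ht 2 (x j) (y (σ j)) < ht 2 (x i) (y (σ i)) → False := by
    intro i j h1 h2
    have hij : i ≠ j := by
      rintro rfl
      exact lt_irrefl _ h1
    have hlt := swap_lt (hx i) (hx j) (hy (σ i)) (hy (σ j)) h1 h2
    have hopt := h ((Equiv.swap i j).trans σ)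
    have hsum : ∑ k, (cost (x k) (y (σ k)) - cost (x k) (y (((Equiv.swap i j).trans σ) k)))
        = (cost (x i) (y (σ i)) - cost (x i) (y (σ j)))
          + (cost (x j) (y (σ j)) - cost (x j) (y (σ i))) := by
      rw [Fintype.sum_eq_add i j hij]
      · simp
      · rintro k ⟨hki, hkj⟩
        rw [Equiv.trans_apply, Equiv.swap_apply_of_ne_of_ne hki hkj, sub_self]
    rw [Finset.sum_sub_distrib] at hsum
    linarith
  intro i j
  by_contra hneg
  push Not at hneg
  rcases mul_neg_iff.mp hneg with ⟨h1, h2⟩ | ⟨h1, h2⟩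
  · exact key j i (by simpa using h1) (by simpa using h2)
  · exact key i j (by simpa using h1) (by simpa using h2)

end Pool.Agent.H96.OT
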