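import Pool.Agent.H96.OT.Lim

set_option autoImplicit false
set_option linter.unusedSectionVars false

open MeasureTheory ProbabilityTheory Filter InformationTheory
open scoped ENNReal Topology BoundedContinuousFunction

namespace Pool.Agent.H96.OT

variable {Ω : Type} [MeasurableSpace Ω] {P : Measure Ω} [IsProbabilityMeasure P]
  {X Y : ℕ → Ω → Pl}

/-- the log-moment of a test function -/
noncomputable def ell (F : C(K3, ℝ)) : ℝ := Real.log (∫ k, Real.exp (F k) ∂nuK)

theorem integrable_expF (F : C(K3, ℝ)) : Integrable (fun k => Real.exp (F k)) nuK := by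
  apply Integrable.of_bound (C := Real.exp ‖F‖)
  · exact (Real.continuous_exp.comp F.continuous).aestronglyMeasurable
  · refine ae_of_all _ (fun k => ?_)
    rw [Real.norm_eq_abs, abs_of_pos (Real.exp_pos _)]
    exact Real.exp_le_exp.mpr ((le_abs_self _).trans (F.norm_coe_le_norm k))

theorem integral_expF_pos (F : C(K3, ℝ)) : 0 < ∫ k, Real.exp (F k) ∂nuK := by
  have h1 : ∫ _k, Real.exp (-‖F‖) ∂nuK ≤ ∫ k, Real.exp (F k) ∂nuK := by
    apply integral_mono (integrable_const _) (integrable_expF F)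
    intro k
    exact Real.exp_le_exp.mpr (neg_le_of_abs_le (F.norm_coe_le_norm k))
  rw [integral_const, probReal_univ, one_smul] at h1
  exact lt_of_lt_of_le (Real.exp_pos _) h1

theorem lintegral_qF_eq (F : C(K3, ℝ)) :
    ∫⁻ y, qF (fun t => F (pr t)) y ∂lebA = ENNReal.ofReal (Real.exp (ell F)) := by
  have hFm : Measurable (fun t : ℝ × ℝ × ℝ => ENNReal.ofReal (Real.exp (F (pr t)))) :=
    (Real.continuous_exp.comp (F.continuous.comp continuous_pr)).measurable.ennreal_ofReal
  have h1 : ∫⁻ y, qF (fun t => F (pr t)) y ∂lebA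
      = ∫⁻ t, ENNReal.ofReal (Real.exp (F (pr t))) ∂box3 := by
    unfold qF box3
    rw [lintegral_prod _ hFm.aemeasurable]
    rw [lintegral_lintegral_swap]
    · apply lintegral_congr
      intro a
      have hm : Measurable (fun q : ℝ × ℝ => ENNReal.ofReal (Real.exp (F (pr (a, q))))) :=
        hFm.comp (measurable_const.prodMk measurable_id)
      rw [lintegral_prod _ hm.aemeasurable]
      apply lintegral_lintegral_swap
      apply Measurable.aemeasurable
      exact hFm.comp (f := fun q : ℝ × ℝ => (a, q.2, q.1)) (by fun_prop)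
    · apply Measurable.aemeasurable
      have hm : Measurable (fun q : (ℝ × ℝ) × ℝ =>
          ENNReal.ofReal (Real.exp (F (pr (q.1.2, q.2, q.1.1))))) :=
        hFm.comp (f := fun q : (ℝ × ℝ) × ℝ => (q.1.2, q.2, q.1.1)) (by fun_prop)
      exact hm.lintegral_prod_right'
  rw [h1, ell, Real.exp_log (integral_expF_pos F),
    ofReal_integral_eq_lintegral_ofReal (integrable_expF F)
      (ae_of_all _ (fun _ => (Real.exp_pos _).le)), nuK,
    lintegral_map (f := fun k => ENNReal.ofReal (Real.exp (F k)))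
      (Real.continuous_exp.comp F.continuous).measurable.ennreal_ofReal continuous_pr.measurable]

/-! ### Almost sure distinctness of the points -/

theorem diag_null (μ : Measure Pl) [SigmaFinite μ] [NullSingletonClass μ] :
    (μ.prod μ) {p | p.1 = p.2} = 0 := by
  have hm : MeasurableSet {p : Pl × Pl | p.1 = p.2} :=
    measurableSet_eq_fun measurable_fst measurable_snd
  rw [Measure.prod_apply hm]
  have : ∀ x : Pl, μ (Prod.mk x ⁻¹' {p : Pl × Pl | p.1 = p.2}) = 0 := by
    intro x
    have e : Prod.mk x ⁻¹' {p : Pl × Pl | p.1 = p.2} = {x} := by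
      ext y
      simp [eq_comm]
    rw [e]
    exact measure_singleton _
  simp only [this, lintegral_zero]

instance : NullSingletonClass (unif 0) := by unfold unif; infer_instance

instance : NullSingletonClass (unif 2) := by unfold unif; infer_instance

theorem ae_distinct {Z : ℕ → Ω → Pl} {μ : Measure Pl} [SigmaFinite μ] [NullSingletonClass μ]
    (hZ : ∀ i, Measurable (Z i)) (hlaw : ∀ i, P.map (Z i) = μ) (hind : iIndepFun Z P) :
    ∀ᵐ ω ∂P, ∀ i j, i ≠ j → Z i ω ≠ Z j ω := by
  rw [ae_all_iff]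
  intro i
  rw [ae_all_iff]
  intro j
  by_cases hij : i = j
  · exact ae_of_all _ (fun _ h => absurd hij h)
  · have h1 := (hind.indepFun hij).map_prod_eq_prod_map_map (hZ i).aemeasurable (hZ j).aemeasurable
    rw [hlaw i, hlaw j] at h1
    have hm : MeasurableSet {p : Pl × Pl | p.1 = p.2} :=
      measurableSet_eq_fun measurable_fst measurable_snd
    have h2 := diag_null μ
    rw [← h1, Measure.map_apply ((hZ i).prodMk (hZ j)) hm] at h2
    have h3 : ∀ᵐ ω ∂P, ω ∉ (fun ω => (Z i ω, Z j ω)) ⁻¹' {p : Pl × Pl | p.1 = p.2} :=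
      measure_eq_zero_iff_ae_notMem.mp h2
    filter_upwards [h3] with ω hω _ heq
    exact hω heq

/-! ### The good event -/

/-- the properties of a sample point used in the deterministic part of the proof -/
structure Good (X Y : ℕ → Ω → Pl) (ω : Ω) : Prop where
  memX : ∀ i, (X i ω).1 ∈ Set.Icc (0 : ℝ) 1 ∧ (X i ω).2 ∈ Set.Icc (0 : ℝ) 1
  memY : ∀ i, (Y i ω).1 ∈ Set.Icc (2 : ℝ) 3 ∧ (Y i ω).2 ∈ Set.Icc (0 : ℝ) 1
  neX : ∀ i j, i ≠ j → X i ω ≠ X j ω
  neY : ∀ i j, i ≠ j → Y i ω ≠ Y j ω
  close : ∀ m : ℕ, 0 < m → ∀ᶠ n : ℕ in atTop, ∃ τ : Equiv.Perm (Fin n), ∀ i : Fin n,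
      |(X i ω).2 - (Y (τ i) ω).2| ≤ 3 / m
  meanX : Tendsto (fun n : ℕ => (∑ i ∈ Finset.range n, (X i ω).1) / n) atTop (𝓝 (1 / 2))
  meanY : Tendsto (fun n : ℕ => (∑ i ∈ Finset.range n, (Y i ω).1) / n) atTop (𝓝 (5 / 2))
  notBad : ∀ k m : ℕ, ∀ᶠ n in atTop, ω ∉ badEvent X Y
    (fun t => (TopologicalSpace.denseSeq C(K3, ℝ) k) (pr t))
    (ell (TopologicalSpace.denseSeq C(K3, ℝ) k) + 1 / ((m : ℝ) + 1)) n

theorem ae_good (h : IsSample P X Y) : ∀ᵐ ω ∂P, Good X Y ω := by
  have hdX := ae_distinct h.measX h.lawX (h.indep.precomp (g := Sum.inl) Sum.inl_injective)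
  have hdY := ae_distinct h.measY h.lawY (h.indep.precomp (g := Sum.inr) Sum.inr_injective)
  have hiX : Integrable (fun x : Pl => x.1) (unif 0) := by
    apply Integrable.of_bound (C := 1) measurable_fst.aestronglyMeasurable
    filter_upwards [ae_unif_zero] with x hx
    rw [Real.norm_eq_abs, abs_of_nonneg hx.1.1]
    exact hx.1.2
  have hiY : Integrable (fun x : Pl => x.1) (unif 2) := by
    apply Integrable.of_bound (C := 3) measurable_fst.aestronglyMeasurable
    filter_upwards [ae_unif_two] with x hx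
    rw [Real.norm_eq_abs, abs_of_nonneg (by linarith [hx.1.1])]
    exact hx.1.2
  have hmX := h.slln_X measurable_fst hiX
  have hmY := h.slln_Y measurable_fst hiY
  have hnb : ∀ᵐ ω ∂P, ∀ k m : ℕ, ∀ᶠ n in atTop, ω ∉ badEvent X Y
      (fun t => (TopologicalSpace.denseSeq C(K3, ℝ) k) (pr t))
      (ell (TopologicalSpace.denseSeq C(K3, ℝ) k) + 1 / ((m : ℝ) + 1)) n := by
    rw [ae_all_iff]
    intro k
    rw [ae_all_iff]
    intro m
    apply eventually_lt h
    · exact ((TopologicalSpace.denseSeq C(K3, ℝ) k).continuous.comp continuous_pr).measurable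
    · exact lintegral_qF_eq _
    · positivity
  filter_upwards [h.ae_X, h.ae_Y, hdX, hdY, h.close_perm, hmX, hmY, hnb] with ω h1 h2 h3 h4 h5 h6
    h7 h8
  rw [integral_fst_zero] at h6
  rw [integral_fst_two] at h7
  exact ⟨h1, h2, h3, h4, h5, h6, h7, h8⟩

theorem cost_le_abs (x y : Pl) : cost x y ≤ |x.1 - y.1| + |x.2 - y.2| := by
  unfold cost
  rw [Real.sqrt_le_left (by positivity)]
  nlinarith [abs_nonneg (x.1 - y.1), abs_nonneg (x.2 - y.2), sq_abs (x.1 - y.1),
    sq_abs (x.2 - y.2), mul_nonneg (abs_nonneg (x.1 - y.1)) (abs_nonneg (x.2 - y.2))]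

/-! ### Deterministic consequences -/

section det

variable {ω : Ω} (hg : Good X Y ω) {π : ℕ → ProbabilityMeasure (Pl × Pl)}
  (hπ : ∀ n : ℕ, 1 ≤ n → IsOptimalPlan (emp n (fun i => X i ω)) (emp n (fun i => Y i ω)) (π n))

include hg hπ

/-- a bound for all optimal assignments gives a bound for the optimal plans -/
theorem plan_bound (G : Pl × Pl →ᵇ ℝ) (B : ℕ → ℝ)
    (hB : ∀ᶠ n : ℕ in atTop, ∀ σ : Equiv.Perm (Fin n), IsOptPerm (fun i : Fin n => X i ω)
      (fun i : Fin n => Y i ω) σ → ∑ i : Fin n, G (pairs X Y σ ω i) ≤ n * B n) :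
    ∀ᶠ n : ℕ in atTop, ∫ p, G p ∂(π n : Measure (Pl × Pl)) ≤ B n := by
  filter_upwards [hB, eventually_ge_atTop 1] with n hn hn1
  apply plan_le (by omega : 0 < n) (fun i => X i ω) (fun i => Y i ω) ?_ ?_ _ (hπ n hn1) _
    (G.integrable _) _ hn
  · intro i j hij
    by_contra hne
    exact hg.neX i j (fun h => hne (Fin.ext h)) hij
  · intro i j hij
    by_contra hne
    exact hg.neY i j (fun h => hne (Fin.ext h)) hij

omit hπ in
theorem pairs_inBox {n : ℕ} (σ : Equiv.Perm (Fin n)) (i : Fin n) : InBox (pairs X Y σ ω i) :=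
  ⟨hg.memX i, hg.memY (σ i)⟩

omit hπ in
theorem pairs_sameOrder {n : ℕ} {σ : Equiv.Perm (Fin n)}
    (hσ : IsOptPerm (fun i : Fin n => X i ω) (fun i : Fin n => Y i ω) σ) :
    SameOrder (pairs X Y σ ω) :=
  hσ.sameOrder (fun i => (hg.memX i).1.2) (fun i => (hg.memY i).1.1)

variable {ρ : ProbabilityMeasure (Pl × Pl)} (hρ : MapClusterPt ρ atTop π)

include hρ

theorem cluster_Gt (k : ℕ) :
    ∫ p, Gt (TopologicalSpace.denseSeq C(K3, ℝ) k) p ∂(ρ : Measure (Pl × Pl))
      ≤ ell (TopologicalSpace.denseSeq C(K3, ℝ) k) := by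
  set F := TopologicalSpace.denseSeq C(K3, ℝ) k with hF
  apply le_of_forall_pos_le_add
  intro ε hε
  obtain ⟨m, hm⟩ := exists_nat_one_div_lt hε
  have h1 : ∫ p, Gt F p ∂(ρ : Measure (Pl × Pl)) ≤ ell F + 1 / ((m : ℝ) + 1) := by
    apply cluster_le hρ
    apply plan_bound hg hπ (Gt F) (fun _ => ell F + 1 / ((m : ℝ) + 1))
    filter_upwards [hg.notBad k m] with n hn σ hσ
    by_contra hcon
    push Not at hcon
    apply hn
    refine ⟨σ, pairs_sameOrder hg hσ, fun i => ?_, ?_⟩
    · have h2 := (hg.memX i).1.2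
      have h3 := (hg.memY (σ i)).1.1
      linarith
    · have e : ∑ i : Fin n, gF (fun t => F (pr t)) (pairs X Y σ ω i)
          = ∑ i : Fin n, Gt F (pairs X Y σ ω i) :=
        Finset.sum_congr rfl (fun i _ => (Gt_eq_gF F (pairs_inBox hg σ i)).symm)
      rw [e]
      exact hcon.le
  linarith

theorem cluster_inBox : ∀ᵐ p ∂(ρ : Measure (Pl × Pl)), InBox p := by
  have h1 : ∫ p, dKt p ∂(ρ : Measure (Pl × Pl)) ≤ 0 := by
    apply cluster_le hρ
    apply plan_bound hg hπ dKt (fun _ => 0)
    refine Eventually.of_forall (fun n σ _ => ?_)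
    rw [mul_zero]
    apply le_of_eq
    apply Finset.sum_eq_zero
    intro i _
    rw [dKt_apply, dK_zero (pairs_inBox hg σ i)]
    simp
  have hnn : ∀ p, 0 ≤ dKt p := fun p => le_min (dK_nonneg _) (by norm_num)
  have h2 : ∫ p, dKt p ∂(ρ : Measure (Pl × Pl)) = 0 :=
    le_antisymm h1 (integral_nonneg hnn)
  rw [integral_eq_zero_iff_of_nonneg hnn (dKt.integrable _)] at h2
  filter_upwards [h2] with p hp
  apply inBox_of_dK
  have h3 : min (dK p) 1 = 0 := hp
  rcases min_choice (dK p) 1 with h4 | h4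
  · rw [h4] at h3; exact h3.le
  · rw [h4] at h3; norm_num at h3

omit hπ hρ in
theorem mean_diff : Tendsto (fun n : ℕ => (∑ i : Fin n, (Y i ω).1 - ∑ i : Fin n, (X i ω).1) / n)
    atTop (𝓝 2) := by
  have h1 := hg.meanY.sub hg.meanX
  have e : (5 : ℝ) / 2 - 1 / 2 = 2 := by norm_num
  rw [e] at h1
  refine h1.congr (fun n => ?_)
  rw [Finset.sum_range, Finset.sum_range]
  ring

omit hπ hρ in
theorem sum_hc {n : ℕ} (σ : Equiv.Perm (Fin n)) : ∑ i : Fin n, hc (pairs X Y σ ω i)
    = ∑ i : Fin n, (Y i ω).1 - ∑ i : Fin n, (X i ω).1 := by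
  have h1 : ∀ i : Fin n, hc (pairs X Y σ ω i) = (Y (σ i) ω).1 - (X i ω).1 := by
    intro i
    have h2 := inBox_h (pairs_inBox hg σ i)
    rw [hc_apply, cl_eq h2.1 h2.2]
    rfl
  simp only [h1]
  rw [Finset.sum_sub_distrib]
  congr 1
  exact Equiv.sum_comp σ (fun i : Fin n => (Y i ω).1)

theorem cluster_hc : ∫ p, hc p ∂(ρ : Measure (Pl × Pl)) = 2 := by
  have hmd := mean_diff hg
  apply le_antisymm
  · apply le_of_forall_pos_le_add
    intro ε hε
    apply cluster_le hρ
    apply plan_bound hg hπ hc (fun _ => 2 + ε)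
    filter_upwards [(tendsto_order.mp hmd).2 (2 + ε) (by linarith), eventually_ge_atTop 1]
      with n hn hn1 σ _
    have hn0 : (0 : ℝ) < n := by exact_mod_cast hn1
    rw [div_lt_iff₀ hn0] at hn
    rw [sum_hc hg]
    linarith
  · have h1 : ∫ p, (-hc) p ∂(ρ : Measure (Pl × Pl)) ≤ -2 := by
      apply le_of_forall_pos_le_add
      intro ε hε
      apply cluster_le hρ
      apply plan_bound hg hπ (-hc) (fun _ => -2 + ε)
      filter_upwards [(tendsto_order.mp hmd).1 (2 - ε) (by linarith), eventually_ge_atTop 1]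
        with n hn hn1 σ _
      have hn0 : (0 : ℝ) < n := by exact_mod_cast hn1
      rw [lt_div_iff₀ hn0] at hn
      have e : ∑ i : Fin n, (-hc) (pairs X Y σ ω i) = -∑ i : Fin n, hc (pairs X Y σ ω i) := by
        rw [← Finset.sum_neg_distrib]
        rfl
      rw [e, sum_hc hg]
      linarith
    have h2 : ∫ p, (-hc) p ∂(ρ : Measure (Pl × Pl)) = -∫ p, hc p ∂(ρ : Measure (Pl × Pl)) :=
      integral_neg _
    rw [h2] at h1
    linarith

theorem cluster_ct : ∫ p, ct p ∂(ρ : Measure (Pl × Pl)) ≤ 2 := by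
  have hmd := mean_diff hg
  apply le_of_forall_pos_le_add
  intro ε hε
  obtain ⟨m, hm⟩ := exists_nat_gt (6 / ε)
  have hm0 : 0 < m := by
    have : (0 : ℝ) < m := lt_trans (by positivity) hm
    exact_mod_cast this
  have hm1 : (0 : ℝ) < m := by exact_mod_cast hm0
  have hm2 : 3 / (m : ℝ) ≤ ε / 2 := by
    rw [div_lt_iff₀ hε] at hm
    rw [div_le_iff₀ hm1]
    linarith
  apply cluster_le hρ
  apply plan_bound hg hπ ct (fun _ => 2 + ε)
  filter_upwards [(tendsto_order.mp hmd).2 (2 + ε / 2) (by linarith), eventually_ge_atTop 1,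
    hg.close m hm0] with n hn hn1 hτ σ hσ
  obtain ⟨τ, hτ⟩ := hτ
  have hn0 : (0 : ℝ) < n := by exact_mod_cast hn1
  rw [div_lt_iff₀ hn0] at hn
  calc ∑ i : Fin n, ct (pairs X Y σ ω i) ≤ ∑ i : Fin n, cost (X i ω) (Y (σ i) ω) :=
        Finset.sum_le_sum (fun i _ => min_le_left _ _)
    _ ≤ ∑ i : Fin n, cost (X i ω) (Y (τ i) ω) := hσ τ
    _ ≤ ∑ i : Fin n, (((Y (τ i) ω).1 - (X i ω).1) + 3 / m) := by
        apply Finset.sum_le_sum
        intro i _
        refine (cost_le_abs _ _).trans (add_le_add (le_of_eq ?_) (hτ i))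
        rw [abs_sub_comm, abs_of_nonneg]
        linarith [(hg.memX i).1.2, (hg.memY (τ i)).1.1]
    _ = (∑ i : Fin n, (Y i ω).1 - ∑ i : Fin n, (X i ω).1) + n * (3 / m) := by
        rw [Finset.sum_add_distrib, Finset.sum_sub_distrib,
          Equiv.sum_comp τ (fun i : Fin n => (Y i ω).1)]
        simp
    _ ≤ n * (2 + ε) := by nlinarith

/-- the limit plans preserve the vertical coordinate -/
theorem cluster_vertical : ∀ᵐ p ∂(ρ : Measure (Pl × Pl)), p.1.2 = p.2.2 := by
  have hbox := cluster_inBox hg hπ hρ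
  have h1 := cluster_ct hg hπ hρ
  have h2 := cluster_hc hg hπ hρ
  have hnn : 0 ≤ᵐ[(ρ : Measure (Pl × Pl))] fun p => ct p - hc p := by
    filter_upwards [hbox] with p hp
    have h3 := inBox_h hp
    simp only [Pi.zero_apply]
    rw [ct_apply, hc_apply, cl_eq h3.1 h3.2, sub_nonneg, le_min_iff]
    refine ⟨?_, by linarith⟩
    unfold cost
    apply Real.le_sqrt_of_sq_le
    nlinarith [sq_nonneg (p.1.2 - p.2.2)]
  have h4 : ∫ p, (ct p - hc p) ∂(ρ : Measure (Pl × Pl)) = 0 := by
    apply le_antisymm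
    · rw [integral_sub (ct.integrable _) (hc.integrable _), h2]
      linarith
    · exact integral_nonneg_of_ae hnn
  rw [integral_eq_zero_iff_of_nonneg_ae hnn ((ct.integrable _).sub (hc.integrable _))] at h4
  filter_upwards [hbox, h4] with p hp h5
  have h3 := inBox_h hp
  simp only [Pi.zero_apply] at h5
  rw [ct_apply, hc_apply, cl_eq h3.1 h3.2, sub_eq_zero] at h5
  have h6 : cost p.1 p.2 = p.2.1 - p.1.1 := by
    rcases min_choice (cost p.1 p.2) 10 with h7 | h7
    · rw [h7] at h5; exact h5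
    · rw [h7] at h5; linarith
  unfold cost at h6
  have h8 : (p.1.1 - p.2.1) ^ 2 + (p.1.2 - p.2.2) ^ 2 = (p.2.1 - p.1.1) ^ 2 := by
    rw [← h6, Real.sq_sqrt (by positivity)]
  have h9 : (p.1.2 - p.2.2) ^ 2 = 0 := by nlinarith
  have h10 : p.1.2 - p.2.2 = 0 := by
    exact pow_eq_zero_iff (two_ne_zero) |>.mp h9
  linarith

end det

/-! ### The relative entropy bound -/

/-- reading of the coordinates `(x₁, y₁, x₂)` -/
noncomputable def TK (p : Pl × Pl) : K3 := pr (p.1.1, p.2.1, p.1.2)

/-- the plan with equal vertical coordinates -/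
def SK (k : K3) : Pl × Pl := (((k.1 : ℝ), (k.2.2 : ℝ)), ((k.2.1 : ℝ), (k.2.2 : ℝ)))

theorem continuous_TK : Continuous TK := continuous_pr.comp (by fun_prop)

theorem continuous_SK : Continuous SK := by
  unfold SK
  fun_prop

theorem SK_TK {p : Pl × Pl} (h : InBox p) (h2 : p.1.2 = p.2.2) : SK (TK p) = p := by
  unfold SK TK pr
  simp only
  rw [Set.projIcc_of_mem _ h.1.1, Set.projIcc_of_mem _ h.1.2, Set.projIcc_of_mem _ h.2.1]
  simp only
  apply Prod.ext
  · rfl
  · apply Prod.ext
    · rfl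
    · exact h2

theorem box3_eq : box3 = volume.restrict
    (Set.Icc (0 : ℝ) 1 ×ˢ Set.Icc (2 : ℝ) 3 ×ˢ Set.Icc (0 : ℝ) 1) := by
  unfold box3 lebA lebC
  rw [Measure.prod_restrict, Measure.prod_restrict]
  rfl

theorem nuK_map : nuK.map SK = indepPlan := by
  unfold nuK indepPlan
  rw [Measure.map_map continuous_SK.measurable continuous_pr.measurable, ← box3_eq]
  apply Measure.map_congr
  have h : ∀ᵐ t ∂box3, t ∈ Set.Icc (0 : ℝ) 1 ×ˢ Set.Icc (2 : ℝ) 3 ×ˢ Set.Icc (0 : ℝ) 1 := by
    rw [box3_eq]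
    exact ae_restrict_mem (measurableSet_Icc.prod (measurableSet_Icc.prod measurableSet_Icc))
  filter_upwards [h] with t ht
  obtain ⟨h1, h2, h3⟩ := ht
  simp only [Function.comp, SK, pr]
  rw [Set.projIcc_of_mem _ h1, Set.projIcc_of_mem _ h2, Set.projIcc_of_mem _ h3]

instance : IsProbabilityMeasure indepPlan := by
  rw [← nuK_map]
  exact Measure.isProbabilityMeasure_map continuous_SK.measurable.aemeasurable

section det2

variable {ω : Ω} (hg : Good X Y ω) {π : ℕ → ProbabilityMeasure (Pl × Pl)}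
  (hπ : ∀ n : ℕ, 1 ≤ n → IsOptimalPlan (emp n (fun i => X i ω)) (emp n (fun i => Y i ω)) (π n))
  {ρ : ProbabilityMeasure (Pl × Pl)} (hρ : MapClusterPt ρ atTop π)

include hg hπ hρ

theorem map_SK_TK : ((ρ : Measure (Pl × Pl)).map TK).map SK = ρ := by
  rw [Measure.map_map continuous_SK.measurable continuous_TK.measurable]
  have h1 : (SK ∘ TK) =ᵐ[(ρ : Measure (Pl × Pl))] id := by
    filter_upwards [cluster_inBox hg hπ hρ, cluster_vertical hg hπ hρ] with p hp hv
    exact SK_TK hp hv
  rw [Measure.map_congr h1, Measure.map_id]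

theorem cluster_dv_dense (k : ℕ) :
    ∫ x, (TopologicalSpace.denseSeq C(K3, ℝ) k) x ∂((ρ : Measure (Pl × Pl)).map TK)
      ≤ (∫ p, lc p ∂(ρ : Measure (Pl × Pl)))
        + Real.log (∫ x, Real.exp ((TopologicalSpace.denseSeq C(K3, ℝ) k) x) ∂nuK) := by
  set F := TopologicalSpace.denseSeq C(K3, ℝ) k with hF
  have h1 := cluster_Gt hg hπ hρ k
  rw [← hF] at h1
  have h2 : ∫ x, F x ∂((ρ : Measure (Pl × Pl)).map TK)
      = ∫ p, F (TK p) ∂(ρ : Measure (Pl × Pl)) :=
    integral_map continuous_TK.measurable.aemeasurable F.continuous.aestronglyMeasurable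
  have h3 : ∫ p, Gt F p ∂(ρ : Measure (Pl × Pl))
      = ∫ p, (F (TK p) - lc p) ∂(ρ : Measure (Pl × Pl)) := by
    apply integral_congr_ae
    filter_upwards [cluster_vertical hg hπ hρ] with p hv
    rw [Gt_apply, lc_apply]
    have : arg p = (p.1.1, p.2.1, p.1.2) := by
      unfold arg
      rw [← hv, sub_self, zero_div, mul_zero, add_zero]
    rw [this]
    rfl
  have hint : Integrable (fun p => F (TK p)) (ρ : Measure (Pl × Pl)) := by
    apply Integrable.of_bound (C := ‖F‖)
    · exact (F.continuous.comp continuous_TK).aestronglyMeasurable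
    · exact ae_of_all _ (fun p => F.norm_coe_le_norm _)
  rw [integral_sub hint (lc.integrable _)] at h3
  rw [h2]
  unfold ell at h1
  linarith

theorem cluster_dv (F : K3 →ᵇ ℝ) :
    ∫ x, F x ∂((ρ : Measure (Pl × Pl)).map TK)
      ≤ (∫ p, lc p ∂(ρ : Measure (Pl × Pl))) + Real.log (∫ x, Real.exp (F x) ∂nuK) := by
  have hprob : IsProbabilityMeasure ((ρ : Measure (Pl × Pl)).map TK) :=
    Measure.isProbabilityMeasure_map continuous_TK.measurable.aemeasurable
  apply le_of_forall_pos_le_add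
  intro ε hε
  set F0 : C(K3, ℝ) := F.toContinuousMap with hF0
  obtain ⟨k, hk⟩ := (TopologicalSpace.denseRange_denseSeq C(K3, ℝ)).exists_dist_lt F0
    (show 0 < ε / 2 by linarith)
  set G := TopologicalSpace.denseSeq C(K3, ℝ) k with hG
  have hclose : ∀ x, |F x - G x| ≤ ε / 2 := by
    intro x
    have h1 := (ContinuousMap.dist_apply_le_dist (f := F0) (g := G) x)
    rw [Real.dist_eq] at h1
    exact h1.trans hk.le
  have h1 := cluster_dv_dense hg hπ hρ k
  rw [← hG] at h1
  have hintG : ∀ m : Measure K3, IsFiniteMeasure m → Integrable (fun x => G x) m := by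
    intro m hm
    apply Integrable.of_bound (C := ‖G‖)
    · exact G.continuous.aestronglyMeasurable
    · exact ae_of_all _ (fun p => G.norm_coe_le_norm _)
  have h2 : ∫ x, F x ∂((ρ : Measure (Pl × Pl)).map TK)
      ≤ ∫ x, G x ∂((ρ : Measure (Pl × Pl)).map TK) + ε / 2 := by
    have h3 : ∫ x, F x ∂((ρ : Measure (Pl × Pl)).map TK)
        ≤ ∫ x, (G x + ε / 2) ∂((ρ : Measure (Pl × Pl)).map TK) := by
      apply integral_mono (F.integrable _) ((hintG _ inferInstance).add (integrable_const _))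
      intro x
      have := (abs_le.mp (hclose x)).2
      simp only [Pi.add_apply]
      linarith
    rw [integral_add (hintG _ inferInstance) (integrable_const _), integral_const, probReal_univ,
      one_smul] at h3
    exact h3
  have h4 : Real.log (∫ x, Real.exp (G x) ∂nuK)
      ≤ ε / 2 + Real.log (∫ x, Real.exp (F x) ∂nuK) := by
    have h5 : ∫ x, Real.exp (G x) ∂nuK ≤ Real.exp (ε / 2) * ∫ x, Real.exp (F x) ∂nuK := by
      rw [← integral_const_mul]
      apply integral_mono (integrable_expF G)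
      · exact (integrable_expF F0).const_mul _
      · intro x
        simp only
        rw [← Real.exp_add]
        apply Real.exp_le_exp.mpr
        have := (abs_le.mp (hclose x)).1
        linarith
    have h6 : 0 < ∫ x, Real.exp (F x) ∂nuK := integral_expF_pos F0
    calc Real.log (∫ x, Real.exp (G x) ∂nuK)
        ≤ Real.log (Real.exp (ε / 2) * ∫ x, Real.exp (F x) ∂nuK) :=
          Real.log_le_log (integral_expF_pos G) h5
      _ = ε / 2 + Real.log (∫ x, Real.exp (F x) ∂nuK) := by
          rw [Real.log_mul (Real.exp_pos _).ne' h6.ne', Real.log_exp]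
  linarith

theorem integral_lc : ∫ p, lc p ∂(ρ : Measure (Pl × Pl))
    = ∫ p, Real.log (p.2.1 - p.1.1) ∂(ρ : Measure (Pl × Pl)) := by
  apply integral_congr_ae
  filter_upwards [cluster_inBox hg hπ hρ] with p hp
  have h := inBox_h hp
  rw [lc_apply, cl_eq h.1 h.2]

/-- sets which carry the limit plan are large for the independent plan -/
theorem cluster_carrier {A : Set (Pl × Pl)} (hA : MeasurableSet A)
    (hρA : (ρ : Measure (Pl × Pl)) Aᶜ = 0) :
    Real.exp (-(∫ p, lc p ∂(ρ : Measure (Pl × Pl)))) ≤ indepPlan.real A := by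
  have hprob : IsProbabilityMeasure ((ρ : Measure (Pl × Pl)).map TK) :=
    Measure.isProbabilityMeasure_map continuous_TK.measurable.aemeasurable
  have hB : MeasurableSet (SK ⁻¹' A) := continuous_SK.measurable hA
  have h1 : ((ρ : Measure (Pl × Pl)).map TK) (SK ⁻¹' A)ᶜ = 0 := by
    rw [← Set.preimage_compl, ← Measure.map_apply continuous_SK.measurable hA.compl,
      map_SK_TK hg hπ hρ]
    exact hρA
  have h2 := dv_carrier (cluster_dv hg hπ hρ) hB h1
  rw [← nuK_map, Measure.real, Measure.map_apply continuous_SK.measurable hA]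
  exact h2

theorem integral_lc_lt : ∫ p, lc p ∂(ρ : Measure (Pl × Pl)) < Real.log 2 := by
  have h1 : ∀ p, lc p ≤ Real.log 2 + (hc p - 2) / 2 := by
    intro p
    rw [lc_apply, hc_apply]
    have hpos : 0 < cl (p.2.1 - p.1.1) := by linarith [cl_pos (p.2.1 - p.1.1)]
    have h2 := Real.log_le_sub_one_of_pos (show 0 < cl (p.2.1 - p.1.1) / 2 by positivity)
    rw [Real.log_div hpos.ne' (by norm_num)] at h2
    linarith
  have hint : Integrable (fun p => Real.log 2 + (hc p - 2) / 2) (ρ : Measure (Pl × Pl)) :=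
    (integrable_const _).add (((hc.integrable _).sub (integrable_const _)).div_const _)
  have h3 : ∫ p, (Real.log 2 + (hc p - 2) / 2) ∂(ρ : Measure (Pl × Pl)) = Real.log 2 := by
    have hi0 : Integrable (fun p => hc p - 2) (ρ : Measure (Pl × Pl)) :=
      (hc.integrable _).sub (integrable_const _)
    have hi : Integrable (fun p => (hc p - 2) / 2) (ρ : Measure (Pl × Pl)) := hi0.div_const _
    rw [integral_add (integrable_const _) hi, integral_div,
      integral_sub (hc.integrable _) (integrable_const _), cluster_hc hg hπ hρ]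
    simp
  have h4 : ∫ p, lc p ∂(ρ : Measure (Pl × Pl)) ≤ Real.log 2 := by
    rw [← h3]
    exact integral_mono (lc.integrable _) hint h1
  apply lt_of_le_of_ne h4
  intro heq
  -- equality would force `y₁ - x₁ = 2` almost surely
  have h5 : ∫ p, (Real.log 2 + (hc p - 2) / 2 - lc p) ∂(ρ : Measure (Pl × Pl)) = 0 := by
    rw [integral_sub hint (lc.integrable _), h3, heq, sub_self]
  have hnn : ∀ p, 0 ≤ Real.log 2 + (hc p - 2) / 2 - lc p := fun p => sub_nonneg.mpr (h1 p)
  rw [integral_eq_zero_iff_of_nonneg hnn (hint.sub (lc.integrable _))] at h5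
  have h6 : ∀ᵐ p ∂(ρ : Measure (Pl × Pl)), p ∈ {p : Pl × Pl | p.2.1 - p.1.1 = 2} := by
    filter_upwards [h5, cluster_inBox hg hπ hρ] with p hp hbox
    have hb := inBox_h hbox
    simp only [Pi.zero_apply] at hp
    rw [lc_apply, hc_apply, cl_eq hb.1 hb.2] at hp
    change p.2.1 - p.1.1 = 2
    by_contra hne
    have hpos : 0 < p.2.1 - p.1.1 := by linarith
    have h7 := Real.log_lt_sub_one_of_pos (show 0 < (p.2.1 - p.1.1) / 2 by positivity)
      (by intro h; apply hne; linarith)
    rw [Real.log_div hpos.ne' (by norm_num)] at h7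
    linarith
  have hm : MeasurableSet {p : Pl × Pl | p.2.1 - p.1.1 = 2} :=
    measurableSet_eq_fun (by fun_prop) measurable_const
  have h7 := cluster_carrier hg hπ hρ hm (by rwa [ae_iff] at h6)
  have h8 : indepPlan.real {p : Pl × Pl | p.2.1 - p.1.1 = 2} = 0 := by
    rw [← nuK_map, Measure.real, Measure.map_apply continuous_SK.measurable hm, nuK,
      Measure.map_apply continuous_pr.measurable (continuous_SK.measurable hm)]
    have h9 : box3 (pr ⁻¹' (SK ⁻¹' {p : Pl × Pl | p.2.1 - p.1.1 = 2})) = 0 := by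
      have h10 : ∀ᵐ t ∂box3, t ∉ pr ⁻¹' (SK ⁻¹' {p : Pl × Pl | p.2.1 - p.1.1 = 2}) := by
        have hbox : ∀ᵐ t ∂box3,
            t ∈ Set.Icc (0 : ℝ) 1 ×ˢ Set.Icc (2 : ℝ) 3 ×ˢ Set.Icc (0 : ℝ) 1 := by
          rw [box3_eq]
          exact ae_restrict_mem
            (measurableSet_Icc.prod (measurableSet_Icc.prod measurableSet_Icc))
        have hnull : ∀ᵐ t ∂box3, t.2.1 - t.1 ≠ 2 := by
          rw [ae_iff]
          simp only [not_not]
          have hms : MeasurableSet {t : ℝ × ℝ × ℝ | t.2.1 - t.1 = 2} :=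
            measurableSet_eq_fun (by fun_prop) measurable_const
          unfold box3
          rw [Measure.prod_apply hms]
          have hz : ∀ a : ℝ, (lebC.prod lebA) (Prod.mk a ⁻¹' {t : ℝ × ℝ × ℝ | t.2.1 - t.1 = 2})
              = 0 := by
            intro a
            have e : Prod.mk a ⁻¹' {t : ℝ × ℝ × ℝ | t.2.1 - t.1 = 2} = {a + 2} ×ˢ Set.univ := by
              ext q
              simp only [Set.mem_preimage, Set.mem_ofPred_eq, Set.mem_prod, Set.mem_singleton_iff,
                Set.mem_univ, and_true]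
              constructor
              · intro h; linarith
              · intro h; linarith
            rw [e, Measure.prod_prod]
            have : lebC {a + 2} = 0 := by
              unfold lebC
              exact measure_singleton _
            rw [this, zero_mul]
          simp only [hz, lintegral_zero]
        filter_upwards [hbox, hnull] with t ht hne hmem
        apply hne
        obtain ⟨g1, g2, g3⟩ := ht
        have h11 : (SK (pr t)).2.1 - (SK (pr t)).1.1 = 2 := hmem
        unfold SK pr at h11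
        simp only at h11
        rw [Set.projIcc_of_mem _ g1, Set.projIcc_of_mem _ g2] at h11
        exact h11
      exact measure_eq_zero_iff_ae_notMem.mpr h10
    rw [h9, ENNReal.toReal_zero]
  rw [h8] at h7
  exact absurd h7 (not_le.mpr (Real.exp_pos _))

end det2

end Pool.Agent.H96.OT
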