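import Pool.Agent.H96.OT.Geom

set_option autoImplicit false

open MeasureTheory
open scoped ENNReal

namespace Pool.Agent.H96.OT

/-- the plan induced by a permutation -/
noncomputable def permPlan {n : ℕ} (x y : ℕ → Pl) (σ : Equiv.Perm (Fin n)) : Measure (Pl × Pl) :=
  (n : ℝ≥0∞)⁻¹ • ∑ i : Fin n, Measure.dirac (x i, y (σ i))

theorem permPlan_coupling {n : ℕ} (x y : ℕ → Pl) (σ : Equiv.Perm (Fin n)) :
    IsCoupling (emp n x) (emp n y) (permPlan x y σ) := by
  have hmap : ∀ g : Pl × Pl → Pl, Measurable g → (permPlan x y σ).map g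
      = (n : ℝ≥0∞)⁻¹ • ∑ i : Fin n, Measure.dirac (g (x i, y (σ i))) := by
    intro g hg
    unfold permPlan
    rw [Measure.map_smul, Measure.map_finset_sum hg.aemeasurable]
    congr 1
    apply Finset.sum_congr rfl
    intro i _
    exact Measure.map_dirac' hg _
  refine ⟨hmap _ measurable_fst, ?_⟩
  rw [hmap _ measurable_snd, emp]
  congr 1
  exact Equiv.sum_comp σ (fun i : Fin n => Measure.dirac (y i))

theorem lintegral_permPlan {n : ℕ} (x y : ℕ → Pl) (σ : Equiv.Perm (Fin n))
    (f : Pl × Pl → ℝ≥0∞) :
    ∫⁻ p, f p ∂(permPlan x y σ) = (n : ℝ≥0∞)⁻¹ * ∑ i : Fin n, f (x i, y (σ i)) := by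
  unfold permPlan
  rw [lintegral_smul_measure, lintegral_finsetSum_measure, smul_eq_mul]
  congr 1
  apply Finset.sum_congr rfl
  intro i _
  rw [lintegral_dirac]

theorem emp_singleton {n : ℕ} (x : ℕ → Pl) (hx : Function.Injective (fun i : Fin n => x i))
    (i : Fin n) : emp n x {x i} = (n : ℝ≥0∞)⁻¹ := by
  unfold emp
  rw [Measure.smul_apply, Measure.finsetSum_apply, Finset.sum_eq_single i]
  · simp
  · intro j _ hj
    rw [Measure.dirac_apply' _ (measurableSet_singleton _), Set.indicator_of_notMem]
    intro h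
    exact hj (hx h)
  · intro h
    exact absurd (Finset.mem_univ i) h

theorem emp_compl {n : ℕ} (x : ℕ → Pl) : emp n x (Set.range (fun i : Fin n => x i))ᶜ = 0 := by
  unfold emp
  rw [Measure.smul_apply, Measure.finsetSum_apply]
  have : ∀ i ∈ (Finset.univ : Finset (Fin n)),
      Measure.dirac (x i) (Set.range (fun i : Fin n => x i))ᶜ = 0 := by
    intro i _
    rw [Measure.dirac_apply' _ (Set.finite_range _).measurableSet.compl, Set.indicator_of_notMem]
    simp
  rw [Finset.sum_eq_zero this]
  simp

/-- values of an optimal plan between empirical measures are dominated by the values of the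
optimal assignments -/
theorem plan_le {n : ℕ} (hn : 0 < n) (x y : ℕ → Pl)
    (hx : Function.Injective (fun i : Fin n => x i))
    (hy : Function.Injective (fun i : Fin n => y i)) (π : Measure (Pl × Pl))
    [IsProbabilityMeasure π] (hπ : IsOptimalPlan (emp n x) (emp n y) π)
    (G : Pl × Pl → ℝ) (hG : Integrable G π) (B : ℝ)
    (hB : ∀ σ : Equiv.Perm (Fin n), IsOptPerm (fun i : Fin n => x i) (fun i : Fin n => y i) σ →
      ∑ i : Fin n, G (x i, y (σ i)) ≤ n * B) :
    ∫ p, G p ∂π ≤ B := by
  classical
  obtain ⟨⟨hfst, hsnd⟩, hopt⟩ := hπ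
  have hn' : (n : ℝ) ≠ 0 := by exact_mod_cast hn.ne'
  have hnpos : (0 : ℝ) < n := by exact_mod_cast hn
  set S : Finset (Pl × Pl) := (Finset.univ : Finset (Fin n × Fin n)).image
    (fun q => (x q.1, y q.2)) with hS
  have hinj : Function.Injective (fun q : Fin n × Fin n => (x q.1, y q.2)) := by
    rintro ⟨i, j⟩ ⟨k, l⟩ h
    simp only [Prod.mk.injEq] at h
    exact Prod.ext (hx h.1) (hy h.2)
  -- `π` is carried by `S`
  have hSc : π (S : Set (Pl × Pl))ᶜ = 0 := by
    have h1 : π (Prod.fst ⁻¹' (Set.range (fun i : Fin n => x i))ᶜ) = 0 := by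
      rw [← Measure.map_apply measurable_fst (Set.finite_range _).measurableSet.compl, hfst]
      exact emp_compl x
    have h2 : π (Prod.snd ⁻¹' (Set.range (fun i : Fin n => y i))ᶜ) = 0 := by
      rw [← Measure.map_apply measurable_snd (Set.finite_range _).measurableSet.compl, hsnd]
      exact emp_compl y
    refine measure_mono_null ?_ (measure_union_null h1 h2)
    intro p hp
    by_contra hc
    simp only [Set.mem_union, Set.mem_preimage, Set.mem_compl_iff, not_or, not_not,
      Set.mem_range] at hc
    obtain ⟨⟨i, hi⟩, ⟨j, hj⟩⟩ := hc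
    apply hp
    rw [hS]
    simp only [Finset.coe_image, Finset.coe_univ, Set.image_univ, Set.mem_range]
    exact ⟨(i, j), Prod.ext hi hj⟩
  have hrestr : π.restrict (S : Set (Pl × Pl)) = π := by
    rw [Measure.restrict_eq_self_of_ae_mem]
    rw [ae_iff]
    exact hSc
  -- the matrix
  set M : Matrix (Fin n) (Fin n) ℝ := fun i j => n * π.real {(x i, y j)} with hM
  have hint : ∀ F : Pl × Pl → ℝ, Integrable F π → ∫ p, F p ∂π
      = ∑ i : Fin n, ∑ j : Fin n, π.real {(x i, y j)} * F (x i, y j) := by
    intro F hF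
    calc ∫ p, F p ∂π = ∫ p in (S : Set (Pl × Pl)), F p ∂π := by rw [hrestr]
      _ = ∑ p ∈ S, π.real {p} • F p := setIntegral_finset S hF.integrableOn
      _ = ∑ q : Fin n × Fin n, π.real {(x q.1, y q.2)} • F (x q.1, y q.2) := by
          rw [hS, Finset.sum_image (fun a _ b _ h => hinj h)]
      _ = _ := by rw [Fintype.sum_prod_type]; simp only [smul_eq_mul]
  have hrow : ∀ i : Fin n, ∑ j : Fin n, π.real {(x i, y j)} = (n : ℝ)⁻¹ := by
    intro i
    have h1 : π (Prod.fst ⁻¹' {x i}) = (n : ℝ≥0∞)⁻¹ := by
      rw [← Measure.map_apply measurable_fst (measurableSet_singleton _), hfst,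
        emp_singleton x hx i]
    have h2 : π (Prod.fst ⁻¹' {x i}) = ∑ j : Fin n, π {(x i, y j)} := by
      have h3 : π (Prod.fst ⁻¹' {x i}) = π (⋃ j : Fin n, {(x i, y j)}) := by
        apply le_antisymm
        · have h4 : Prod.fst ⁻¹' {x i} ⊆ (⋃ j : Fin n, {((x i, y j) : Pl × Pl)})
              ∪ (S : Set (Pl × Pl))ᶜ := by
            intro p hp
            by_cases hpS : p ∈ (S : Set (Pl × Pl))
            · left
              rw [hS] at hpS
              simp only [Finset.coe_image, Finset.coe_univ, Set.image_univ, Set.mem_range] at hpS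
              obtain ⟨⟨k, l⟩, hkl⟩ := hpS
              rw [Set.mem_iUnion]
              refine ⟨l, ?_⟩
              rw [Set.mem_singleton_iff]
              have : p.1 = x i := hp
              rw [← hkl] at this ⊢
              simp only at this ⊢
              rw [this]
            · right; exact hpS
          refine (measure_mono h4).trans ((measure_union_le _ _).trans ?_)
          rw [hSc, add_zero]
        · apply measure_mono
          intro p hp
          rw [Set.mem_iUnion] at hp
          obtain ⟨j, hj⟩ := hp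
          rw [Set.mem_singleton_iff] at hj
          rw [hj]
          rfl
      rw [h3, measure_iUnion]
      · rw [tsum_fintype]
      · intro j k hjk
        rw [Function.onFun, Set.disjoint_singleton]
        intro h
        exact hjk (hy (Prod.ext_iff.mp h).2)
      · intro j; exact measurableSet_singleton _
    rw [h1] at h2
    have h5 := congrArg ENNReal.toReal h2
    rw [ENNReal.toReal_inv, ENNReal.toReal_natCast,
      ENNReal.toReal_sum (fun j _ => measure_ne_top _ _)] at h5
    exact h5.symm
  have hcol : ∀ j : Fin n, ∑ i : Fin n, π.real {(x i, y j)} = (n : ℝ)⁻¹ := by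
    intro j
    have h1 : π (Prod.snd ⁻¹' {y j}) = (n : ℝ≥0∞)⁻¹ := by
      rw [← Measure.map_apply measurable_snd (measurableSet_singleton _), hsnd,
        emp_singleton y hy j]
    have h2 : π (Prod.snd ⁻¹' {y j}) = ∑ i : Fin n, π {(x i, y j)} := by
      have h3 : π (Prod.snd ⁻¹' {y j}) = π (⋃ i : Fin n, {(x i, y j)}) := by
        apply le_antisymm
        · have h4 : Prod.snd ⁻¹' {y j} ⊆ (⋃ i : Fin n, {((x i, y j) : Pl × Pl)})
              ∪ (S : Set (Pl × Pl))ᶜ := by
            intro p hp
            by_cases hpS : p ∈ (S : Set (Pl × Pl))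
            · left
              rw [hS] at hpS
              simp only [Finset.coe_image, Finset.coe_univ, Set.image_univ, Set.mem_range] at hpS
              obtain ⟨⟨k, l⟩, hkl⟩ := hpS
              rw [Set.mem_iUnion]
              refine ⟨k, ?_⟩
              rw [Set.mem_singleton_iff]
              have : p.2 = y j := hp
              rw [← hkl] at this ⊢
              simp only at this ⊢
              rw [this]
            · right; exact hpS
          refine (measure_mono h4).trans ((measure_union_le _ _).trans ?_)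
          rw [hSc, add_zero]
        · apply measure_mono
          intro p hp
          rw [Set.mem_iUnion] at hp
          obtain ⟨i, hi⟩ := hp
          rw [Set.mem_singleton_iff] at hi
          rw [hi]
          rfl
      rw [h3, measure_iUnion]
      · rw [tsum_fintype]
      · intro i k hik
        rw [Function.onFun, Set.disjoint_singleton]
        intro h
        exact hik (hx (Prod.ext_iff.mp h).1)
      · intro i; exact measurableSet_singleton _
    rw [h1] at h2
    have h5 := congrArg ENNReal.toReal h2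
    rw [ENNReal.toReal_inv, ENNReal.toReal_natCast,
      ENNReal.toReal_sum (fun j _ => measure_ne_top _ _)] at h5
    exact h5.symm
  have hMds : M ∈ doublyStochastic ℝ (Fin n) := by
    rw [mem_doublyStochastic_iff_sum]
    refine ⟨fun i j => by simp only [hM]; positivity, fun i => ?_, fun j => ?_⟩
    · simp only [hM]
      rw [← Finset.mul_sum, hrow, mul_inv_cancel₀ hn']
    · simp only [hM]
      rw [← Finset.mul_sum, hcol, mul_inv_cancel₀ hn']
  obtain ⟨w, hw0, hw1, hwM⟩ := exists_eq_sum_perm_of_mem_doublyStochastic hMds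
  -- formula for integrals
  have hform : ∀ F : Pl × Pl → ℝ, Integrable F π → n * ∫ p, F p ∂π
      = ∑ σ, w σ * ∑ i : Fin n, F (x i, y (σ i)) := by
    intro F hF
    rw [hint F hF, Finset.mul_sum]
    have h1 : ∀ i j : Fin n, (n : ℝ) * (π.real {(x i, y j)} * F (x i, y j))
        = ∑ σ : Equiv.Perm (Fin n), w σ * (if σ i = j then F (x i, y j) else 0) := by
      intro i j
      have h2 : M i j = ∑ σ : Equiv.Perm (Fin n), w σ * (if σ i = j then 1 else 0) := by
        rw [← hwM, Matrix.sum_apply]
        apply Finset.sum_congr rfl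
        intro σ _
        rw [Matrix.smul_apply, smul_eq_mul]
        congr 1
        rw [Equiv.Perm.permMatrix, PEquiv.toMatrix_apply]
        simp [Equiv.toPEquiv_apply, eq_comm]
      rw [← mul_assoc]
      change M i j * F (x i, y j) = _
      rw [h2, Finset.sum_mul]
      apply Finset.sum_congr rfl
      intro σ _
      split_ifs <;> ring
    have h3 : ∀ i : Fin n, (n : ℝ) * ∑ j : Fin n, π.real {(x i, y j)} * F (x i, y j)
        = ∑ σ : Equiv.Perm (Fin n), w σ * F (x i, y (σ i)) := by
      intro i
      rw [Finset.mul_sum]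
      simp only [h1]
      rw [Finset.sum_comm]
      apply Finset.sum_congr rfl
      intro σ _
      rw [← Finset.mul_sum]
      congr 1
      rw [Finset.sum_ite_eq]
      simp
    simp only [h3]
    rw [Finset.sum_comm]
    apply Finset.sum_congr rfl
    intro σ _
    rw [Finset.mul_sum]
  -- optimality of the permutations with positive weight
  have hcostint : Integrable (fun p : Pl × Pl => cost p.1 p.2) π := by
    rw [← hrestr]
    have hm : Measurable (fun p : Pl × Pl => cost p.1 p.2) := by
      unfold cost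
      fun_prop
    apply Measure.integrableOn_of_bounded (M := ∑ p ∈ S, cost p.1 p.2) (measure_ne_top _ _)
      hm.aestronglyMeasurable
    rw [ae_restrict_iff' S.measurableSet]
    refine ae_of_all _ (fun p hp => ?_)
    rw [Real.norm_eq_abs, abs_of_nonneg (cost_nonneg _ _)]
    exact Finset.single_le_sum (f := fun p : Pl × Pl => cost p.1 p.2)
      (fun q _ => cost_nonneg _ _) (Finset.mem_coe.mp hp)
  have hcostle : ∀ τ : Equiv.Perm (Fin n), n * ∫ p, cost p.1 p.2 ∂π
      ≤ ∑ i : Fin n, cost (x i) (y (τ i)) := by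
    intro τ
    have h1 := hopt _ (permPlan_coupling x y τ)
    rw [lintegral_permPlan, ← ofReal_integral_eq_lintegral_ofReal hcostint
      (ae_of_all _ (fun _ => cost_nonneg _ _))] at h1
    rw [← ENNReal.ofReal_sum_of_nonneg (fun _ _ => cost_nonneg _ _)] at h1
    have h2 : (n : ℝ≥0∞)⁻¹ = ENNReal.ofReal ((n : ℝ)⁻¹) := by
      rw [ENNReal.ofReal_inv_of_pos hnpos, ENNReal.ofReal_natCast]
    rw [h2, ← ENNReal.ofReal_mul (by positivity)] at h1
    have h3 : 0 ≤ (n : ℝ)⁻¹ * ∑ i : Fin n, cost (x i) (y (τ i)) :=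
      mul_nonneg (by positivity) (Finset.sum_nonneg (fun _ _ => cost_nonneg _ _))
    have h4 := (ENNReal.ofReal_le_ofReal_iff h3).mp h1
    have h5 := mul_le_mul_of_nonneg_left h4 hnpos.le
    rwa [← mul_assoc, mul_inv_cancel₀ hn', one_mul] at h5
  obtain ⟨τ0, hτ0⟩ := Finite.exists_min
    (fun τ : Equiv.Perm (Fin n) => ∑ i : Fin n, cost (x i) (y (τ i)))
  have hcform := hform _ hcostint
  have hsum0 : ∑ σ, w σ * (∑ i : Fin n, cost (x i) (y (σ i))
      - ∑ i : Fin n, cost (x i) (y (τ0 i))) ≤ 0 := by
    have e : ∑ σ, w σ * (∑ i : Fin n, cost (x i) (y (σ i))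
        - ∑ i : Fin n, cost (x i) (y (τ0 i)))
        = ∑ σ, w σ * ∑ i : Fin n, cost (x i) (y (σ i))
          - ∑ i : Fin n, cost (x i) (y (τ0 i)) := by
      simp only [mul_sub]
      rw [Finset.sum_sub_distrib, ← Finset.sum_mul, hw1, one_mul]
    rw [e, ← hcform]
    linarith [hcostle τ0]
  have hterm : ∀ σ, 0 ≤ w σ * (∑ i : Fin n, cost (x i) (y (σ i))
      - ∑ i : Fin n, cost (x i) (y (τ0 i))) := fun σ =>
    mul_nonneg (hw0 σ) (sub_nonneg.mpr (hτ0 σ))
  have hzero : ∀ σ, w σ * (∑ i : Fin n, cost (x i) (y (σ i))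
      - ∑ i : Fin n, cost (x i) (y (τ0 i))) = 0 := by
    intro σ
    have := (Finset.sum_eq_zero_iff_of_nonneg (fun σ _ => hterm σ)).mp
      (le_antisymm hsum0 (Finset.sum_nonneg (fun σ _ => hterm σ)))
    exact this σ (Finset.mem_univ σ)
  have hle : ∀ σ, w σ * ∑ i : Fin n, G (x i, y (σ i)) ≤ w σ * (n * B) := by
    intro σ
    rcases (hw0 σ).eq_or_lt with h0 | hpos
    · rw [← h0]; simp
    · apply mul_le_mul_of_nonneg_left _ hpos.le
      apply hB
      have h1 : ∑ i : Fin n, cost (x i) (y (σ i)) = ∑ i : Fin n, cost (x i) (y (τ0 i)) := by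
        rcases mul_eq_zero.mp (hzero σ) with h | h
        · exact absurd h hpos.ne'
        · linarith
      intro τ
      rw [h1]
      exact hτ0 τ
  have hfin := hform G hG
  have h6 : n * ∫ p, G p ∂π ≤ n * B := by
    rw [hfin]
    calc ∑ σ, w σ * ∑ i : Fin n, G (x i, y (σ i)) ≤ ∑ σ, w σ * (n * B) :=
          Finset.sum_le_sum (fun σ _ => hle σ)
      _ = n * B := by rw [← Finset.sum_mul, hw1, one_mul]
  exact le_of_mul_le_mul_left h6 hnpos

end Pool.Agent.H96.OT
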