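import Pool.Agent.H96.OT.Geom

set_option autoImplicit false

open MeasureTheory
open scoped ENNReal

namespace Pool.Agent.H96.OT

/-! ### At most one permutation matches the orders -/

theorem rank_eq {n : ℕ} (y z : Fin n → ℝ) (hy : Function.Injective y) (hz : Function.Injective z)
    (σ : Equiv.Perm (Fin n)) (hσ : ∀ i j, 0 ≤ (y i - y j) * (z (σ i) - z (σ j))) (i : Fin n) :
    (Finset.univ.filter (fun k => z k < z (σ i))).card
      = (Finset.univ.filter (fun j => y j < y i)).card := by
  symm
  apply Finset.card_bij (fun j _ => σ j)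
  · intro j hj
    rw [Finset.mem_filter] at hj ⊢
    refine ⟨Finset.mem_univ _, ?_⟩
    have h1 := hσ i j
    have h2 : 0 < y i - y j := by linarith [hj.2]
    have h3 : 0 ≤ z (σ i) - z (σ j) := nonneg_of_mul_nonneg_right h1 h2
    apply lt_of_le_of_ne (by linarith)
    intro h
    have h4 : σ j = σ i := hz h
    have h5 : j = i := σ.injective h4
    rw [h5] at hj
    exact lt_irrefl _ hj.2
  · intro a _ b _ h
    exact σ.injective h
  · intro k hk
    rw [Finset.mem_filter] at hk
    refine ⟨σ.symm k, ?_, by simp⟩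
    rw [Finset.mem_filter]
    refine ⟨Finset.mem_univ _, ?_⟩
    have h1 := hσ i (σ.symm k)
    rw [Equiv.apply_symm_apply] at h1
    have h2 : 0 < z (σ i) - z k := by linarith [hk.2]
    have h3 : 0 ≤ y i - y (σ.symm k) := nonneg_of_mul_nonneg_left h1 h2
    apply lt_of_le_of_ne (by linarith)
    intro h
    have h4 : σ.symm k = i := hy h
    rw [← h4, Equiv.apply_symm_apply] at hk
    exact lt_irrefl _ hk.2

theorem rank_inj {n : ℕ} (z : Fin n → ℝ) {a b : Fin n}
    (h : (Finset.univ.filter (fun k => z k < z a)).card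
      = (Finset.univ.filter (fun k => z k < z b)).card) : z a = z b := by
  have key : ∀ a b : Fin n, z a < z b → (Finset.univ.filter (fun k => z k < z a)).card
      < (Finset.univ.filter (fun k => z k < z b)).card := by
    intro a b hab
    apply Finset.card_lt_card
    rw [Finset.ssubset_iff_of_subset]
    · refine ⟨a, by simp [hab], by simp⟩
    · intro k hk
      rw [Finset.mem_filter] at hk ⊢
      exact ⟨Finset.mem_univ _, hk.2.trans hab⟩
  rcases lt_trichotomy (z a) (z b) with h1 | h1 | h1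
  · exact absurd h (key a b h1).ne
  · exact h1
  · exact absurd h (key b a h1).ne'

theorem perm_unique {n : ℕ} (y z : Fin n → ℝ) (hy : Function.Injective y)
    (hz : Function.Injective z) (σ τ : Equiv.Perm (Fin n))
    (hσ : ∀ i j, 0 ≤ (y i - y j) * (z (σ i) - z (σ j)))
    (hτ : ∀ i j, 0 ≤ (y i - y j) * (z (τ i) - z (τ j))) : σ = τ := by
  apply Equiv.ext
  intro i
  apply hz
  apply rank_inj z
  rw [rank_eq y z hy hz σ hσ i, rank_eq y z hy hz τ hτ i]

/-! ### Ties are negligible -/

theorem tie_null {n : ℕ} (ν : Measure ℝ) [SigmaFinite ν] [NullSingletonClass ν] {i j : Fin n}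
    (hij : i ≠ j) : (Measure.pi (fun _ : Fin n => ν)) {y | y i = y j} = 0 := by
  cases n with
  | zero => exact i.elim0
  | succ m =>
    obtain ⟨k, hk⟩ := Fin.exists_succAbove_eq hij.symm
    have hmp := measurePreserving_piFinSuccAbove (fun _ : Fin (m + 1) => ν) i
    have hset : {y : Fin (m + 1) → ℝ | y i = y j}
        = (MeasurableEquiv.piFinSuccAbove (fun _ : Fin (m + 1) => ℝ) i) ⁻¹'
          {p : ℝ × (Fin m → ℝ) | p.1 = p.2 k} := by
      ext y
      simp only [Set.mem_ofPred_eq, Set.mem_preimage]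
      rw [← hk]
      rfl
    have hmeas : MeasurableSet {p : ℝ × (Fin m → ℝ) | p.1 = p.2 k} :=
      measurableSet_eq_fun measurable_fst ((measurable_pi_apply k).comp measurable_snd)
    rw [hset, hmp.measure_preimage hmeas.nullMeasurableSet, Measure.prod_apply_symm hmeas]
    have : ∀ y : Fin m → ℝ, ν ((fun x => (x, y)) ⁻¹' {p : ℝ × (Fin m → ℝ) | p.1 = p.2 k}) = 0 := by
      intro y
      have e : (fun x : ℝ => (x, y)) ⁻¹' {p : ℝ × (Fin m → ℝ) | p.1 = p.2 k} = {y k} := by
        ext x
        simp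
      rw [e]
      exact measure_singleton _
    simp only [this, lintegral_zero]

theorem ae_injective {n : ℕ} (ν : Measure ℝ) [SigmaFinite ν] [NullSingletonClass ν] :
    ∀ᵐ y ∂(Measure.pi (fun _ : Fin n => ν)), Function.Injective y := by
  have h1 : ∀ i j : Fin n, i ≠ j → ∀ᵐ y ∂(Measure.pi (fun _ : Fin n => ν)), y i ≠ y j := by
    intro i j hij
    rw [ae_iff]
    simp only [not_not]
    exact tie_null ν hij
  have h2 : ∀ᵐ y ∂(Measure.pi (fun _ : Fin n => ν)), ∀ i j : Fin n, i ≠ j → y i ≠ y j := by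
    rw [ae_all_iff]
    intro i
    rw [ae_all_iff]
    intro j
    by_cases hij : i = j
    · exact ae_of_all _ (fun _ h => absurd hij h)
    · filter_upwards [h1 i j hij] with y hy _
      exact hy
  filter_upwards [h2] with y hy i j hyij
  by_contra hij
  exact hy i j hij hyij

/-! ### Counting -/

/-- comonotone pairs of vectors -/
def comon (n : ℕ) (σ : Equiv.Perm (Fin n)) : Set ((Fin n → ℝ) × (Fin n → ℝ)) :=
  {p | ∀ i j, 0 ≤ (p.1 i - p.1 j) * (p.2 (σ i) - p.2 (σ j))}

theorem measurableSet_comon (n : ℕ) (σ : Equiv.Perm (Fin n)) : MeasurableSet (comon n σ) := by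
  have : comon n σ = ⋂ i, ⋂ j, {p : (Fin n → ℝ) × (Fin n → ℝ) |
      0 ≤ (p.1 i - p.1 j) * (p.2 (σ i) - p.2 (σ j))} := by
    ext p
    simp [comon]
  rw [this]
  refine MeasurableSet.iInter (fun i => MeasurableSet.iInter (fun j => ?_))
  apply measurableSet_le measurable_const
  fun_prop

theorem measurePreserving_perm {n : ℕ} (ν : Measure ℝ) [SigmaFinite ν]
    (σ : Equiv.Perm (Fin n)) :
    MeasurePreserving (fun z : Fin n → ℝ => fun i => z (σ i))
      (Measure.pi (fun _ : Fin n => ν)) (Measure.pi (fun _ : Fin n => ν)) := by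
  have h := measurePreserving_piCongrLeft (fun _ : Fin n => ν) σ.symm
  have e : (⇑(MeasurableEquiv.piCongrLeft (fun _ : Fin n => ℝ) σ.symm)
      : (Fin n → ℝ) → (Fin n → ℝ)) = fun z i => z (σ i) := by
    funext z i
    have := MeasurableEquiv.piCongrLeft_apply_apply (β := fun _ : Fin n => ℝ) σ.symm z (σ i)
    simpa using this
  rw [e] at h
  exact h

theorem comon_card {n : ℕ} (ν₁ ν₂ : Measure ℝ) [IsFiniteMeasure ν₁] [IsFiniteMeasure ν₂]
    [NullSingletonClass ν₁] [NullSingletonClass ν₂] :
    (n.factorial : ℝ≥0∞) * (Measure.pi (fun _ : Fin n => ν₁.prod ν₂))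
      {w | ∀ i j, 0 ≤ ((w i).1 - (w j).1) * ((w i).2 - (w j).2)}
      ≤ (ν₁ Set.univ * ν₂ Set.univ) ^ n := by
  classical
  set m := (Measure.pi (fun _ : Fin n => ν₁)).prod (Measure.pi (fun _ : Fin n => ν₂)) with hm
  have hmp := measurePreserving_arrowProdEquivProdArrow ℝ ℝ (Fin n) (fun _ => ν₁) (fun _ => ν₂)
  have h1 : (Measure.pi (fun _ : Fin n => ν₁.prod ν₂))
      {w | ∀ i j, 0 ≤ ((w i).1 - (w j).1) * ((w i).2 - (w j).2)} = m (comon n 1) := by
    rw [← hmp.measure_preimage (measurableSet_comon n 1).nullMeasurableSet]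
    rfl
  have h2 : ∀ σ : Equiv.Perm (Fin n), m (comon n σ) = m (comon n 1) := by
    intro σ
    have hp : MeasurePreserving (fun p : (Fin n → ℝ) × (Fin n → ℝ) => (p.1, fun i => p.2 (σ i)))
        m m := (MeasurePreserving.id _).prod (measurePreserving_perm ν₂ σ)
    rw [← hp.measure_preimage (measurableSet_comon n 1).nullMeasurableSet]
    rfl
  have h3 : ∑ σ : Equiv.Perm (Fin n), m (comon n σ) ≤ m Set.univ := by
    have e1 : ∀ σ : Equiv.Perm (Fin n), m (comon n σ)
        = ∫⁻ p, (comon n σ).indicator (fun _ => (1 : ℝ≥0∞)) p ∂m := by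
      intro σ
      rw [lintegral_indicator (measurableSet_comon n σ)]
      simp
    simp only [e1]
    rw [← lintegral_finsetSum _ (fun σ _ =>
      measurable_const.indicator (measurableSet_comon n σ))]
    rw [← lintegral_one]
    apply lintegral_mono_ae
    have hinj1 : ∀ᵐ p ∂m, Function.Injective p.1 :=
      Measure.quasiMeasurePreserving_fst.ae (ae_injective ν₁)
    have hinj2 : ∀ᵐ p ∂m, Function.Injective p.2 :=
      Measure.quasiMeasurePreserving_snd.ae (ae_injective ν₂)
    filter_upwards [hinj1, hinj2] with p hp1 hp2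
    by_cases hex : ∃ τ : Equiv.Perm (Fin n), p ∈ comon n τ
    · obtain ⟨τ, hτ⟩ := hex
      rw [Finset.sum_eq_single τ]
      · rw [Set.indicator_of_mem hτ]
      · intro σ _ hστ
        rw [Set.indicator_of_notMem]
        intro hσ
        exact hστ (perm_unique p.1 p.2 hp1 hp2 σ τ hσ hτ)
      · intro h
        exact absurd (Finset.mem_univ τ) h
    · push Not at hex
      rw [Finset.sum_eq_zero]
      · exact zero_le
      · intro σ _
        rw [Set.indicator_of_notMem (hex σ)]
  rw [h1]
  calc (n.factorial : ℝ≥0∞) * m (comon n 1) = ∑ _σ : Equiv.Perm (Fin n), m (comon n 1) := by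
        rw [Finset.sum_const, nsmul_eq_mul, Finset.card_univ, Fintype.card_perm, Fintype.card_fin]
    _ = ∑ σ : Equiv.Perm (Fin n), m (comon n σ) := by simp only [h2]
    _ ≤ m Set.univ := h3
    _ = (ν₁ Set.univ * ν₂ Set.univ) ^ n := by
        rw [hm, ← Set.univ_prod_univ, Measure.prod_prod, Measure.pi_univ, Measure.pi_univ]
        simp [mul_pow]

end Pool.Agent.H96.OT
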