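import Mathlib

/-!
A converse of the Donsker-Varadhan inequality: if `∫ F dμ ≤ L + log ∫ e^F dν` for all bounded
continuous functions `F` then `klDiv μ ν ≤ L`.
-/

set_option autoImplicit false

open MeasureTheory InformationTheory Filter Set
open scoped ENNReal BoundedContinuousFunction Topology

namespace Pool.Agent.H96.OT

variable {X : Type*} [TopologicalSpace X] [TopologicalSpace.PseudoMetrizableSpace X]
  [MeasurableSpace X] [BorelSpace X]

theorem exp_sub_exp_le {M x y : ℝ} (hy : |y| ≤ M) :
    Real.exp y ≤ Real.exp x + Real.exp M * |x - y| := by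
  rw [abs_le] at hy
  have h1 : Real.exp y * (x - y + 1) ≤ Real.exp x := by
    have := Real.add_one_le_exp (x - y)
    calc Real.exp y * (x - y + 1) ≤ Real.exp y * Real.exp (x - y) :=
          mul_le_mul_of_nonneg_left this (Real.exp_pos y).le
      _ = Real.exp x := by rw [← Real.exp_add]; congr 1; ring
  have h2 : Real.exp y * (y - x) ≤ Real.exp M * |x - y| := by
    rcases le_or_gt (y - x) 0 with h | h
    · have : 0 ≤ Real.exp M * |x - y| := by positivity
      nlinarith [Real.exp_pos y]
    · have h3 : |x - y| = y - x := by rw [abs_sub_comm, abs_of_pos h]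
      rw [h3]
      exact mul_le_mul_of_nonneg_right (Real.exp_le_exp.mpr hy.2) h.le
  nlinarith

theorem dv_bdd {μ ν : Measure X} [IsProbabilityMeasure μ] [IsProbabilityMeasure ν] {L : ℝ}
    (h : ∀ F : X →ᵇ ℝ, ∫ x, F x ∂μ ≤ L + Real.log (∫ x, Real.exp (F x) ∂ν))
    {F : X → ℝ} (hF : Measurable F) {M : ℝ} (hM : ∀ x, |F x| ≤ M) :
    ∫ x, F x ∂μ ≤ L + Real.log (∫ x, Real.exp (F x) ∂ν) := by
  have hM0 : 0 ≤ M ∨ IsEmpty X := by
    rcases isEmpty_or_nonempty X with hX | ⟨⟨x⟩⟩
    · exact Or.inr hX
    · exact Or.inl ((abs_nonneg _).trans (hM x))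
  rcases hM0 with hM0 | hX
  swap
  · exact absurd (measure_univ (μ := μ)) (by rw [Set.univ_eq_empty_iff.mpr hX]; simp)
  have hintF : ∀ m : Measure X, IsFiniteMeasure m → Integrable F m := fun m hm =>
    Integrable.of_bound hF.aestronglyMeasurable M (ae_of_all _ (fun x => by simpa using hM x))
  have hintE : Integrable (fun x => Real.exp (F x)) ν := by
    apply Integrable.of_bound (hF.exp).aestronglyMeasurable (Real.exp M)
    refine ae_of_all _ (fun x => ?_)
    rw [Real.norm_eq_abs, abs_of_pos (Real.exp_pos _)]
    exact Real.exp_le_exp.mpr ((le_abs_self _).trans (hM x))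
  set I : ℝ := ∫ x, Real.exp (F x) ∂ν with hI
  have hIpos : 0 < I := by
    have h1 : ∫ _x, Real.exp (-M) ∂ν ≤ I := by
      apply integral_mono (integrable_const _) hintE
      intro x
      exact Real.exp_le_exp.mpr (neg_le_of_abs_le (hM x))
    rw [integral_const, probReal_univ, one_smul] at h1
    exact lt_of_lt_of_le (Real.exp_pos _) h1
  apply le_of_forall_pos_le_add
  intro ε hε
  set δ : ℝ := ε / (1 + Real.exp M / I) with hδ
  have hden : 0 < 1 + Real.exp M / I := by positivity
  have hδpos : 0 < δ := by positivity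
  obtain ⟨g, hg, hgi⟩ := (hintF (μ + ν) inferInstance).exists_boundedContinuous_integral_sub_le
    hδpos
  -- clipping
  set g' : X →ᵇ ℝ := BoundedContinuousFunction.ofNormedAddCommGroup
    (fun x => max (-M) (min M (g x))) (continuous_const.max (continuous_const.min g.continuous)) M
    (fun x => by
      rw [Real.norm_eq_abs, abs_le]
      exact ⟨le_max_left _ _, max_le (by linarith) (min_le_left _ _)⟩) with hg'
  have hg'M : ∀ x, |g' x| ≤ M := by
    intro x
    have : g' x = max (-M) (min M (g x)) := rfl
    rw [this, abs_le]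
    exact ⟨le_max_left _ _, max_le (by linarith) (min_le_left _ _)⟩
  have hclip : ∀ x, |F x - g' x| ≤ |F x - g x| := by
    intro x
    have h1 : g' x = max (-M) (min M (g x)) := rfl
    have h2 := abs_le.mp (hM x)
    have e : F x = max (-M) (min M (F x)) := by
      rw [min_eq_right h2.2, max_eq_right h2.1]
    rw [h1]
    calc |F x - max (-M) (min M (g x))|
        = |max (-M) (min M (F x)) - max (-M) (min M (g x))| := by rw [← e]
      _ ≤ |min M (F x) - min M (g x)| := by
          have := abs_max_sub_max_le_abs (min M (F x)) (min M (g x)) (-M)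
          rw [max_comm (-M) (min M (F x)), max_comm (-M) (min M (g x))]
          exact this
      _ ≤ |F x - g x| := by
          have := abs_inf_sub_inf_le_abs (F x) (g x) M
          rw [min_comm M (F x), min_comm M (g x)]
          exact this
  have hintd : ∀ m : Measure X, IsFiniteMeasure m → Integrable (fun x => |F x - g' x|) m := by
    intro m hm
    exact ((hintF m hm).sub (g'.integrable m)).abs
  have hsum : ∫ x, |F x - g' x| ∂μ + ∫ x, |F x - g' x| ∂ν ≤ δ := by
    rw [← integral_add_measure (hintd μ inferInstance) (hintd ν inferInstance)]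
    refine le_trans (integral_mono (hintd _ inferInstance) ?_ hclip) ?_
    · exact ((hintF (μ + ν) inferInstance).sub hgi).abs
    · simpa using hg
  have hμ0 : 0 ≤ ∫ x, |F x - g' x| ∂μ := integral_nonneg (fun _ => abs_nonneg _)
  have hν0 : 0 ≤ ∫ x, |F x - g' x| ∂ν := integral_nonneg (fun _ => abs_nonneg _)
  have h1 : ∫ x, F x ∂μ ≤ ∫ x, g' x ∂μ + δ := by
    have h2 : ∫ x, F x ∂μ ≤ ∫ x, (g' x + |F x - g' x|) ∂μ := by
      have hadd : Integrable (fun x => g' x + |F x - g' x|) μ :=
        (g'.integrable μ).add (hintd μ inferInstance)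
      apply integral_mono (hintF μ inferInstance) hadd
      intro x
      have := le_abs_self (F x - g' x)
      simp only
      linarith
    rw [integral_add (g'.integrable μ) (hintd μ inferInstance)] at h2
    linarith
  have hintg' : Integrable (fun x => Real.exp (g' x)) ν := by
    have hc : Continuous (fun x => Real.exp (g' x)) := Real.continuous_exp.comp g'.continuous
    apply Integrable.of_bound hc.aestronglyMeasurable (Real.exp M)
    refine ae_of_all _ (fun x => ?_)
    rw [Real.norm_eq_abs, abs_of_pos (Real.exp_pos _)]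
    exact Real.exp_le_exp.mpr ((le_abs_self _).trans (hg'M x))
  have h3 : ∫ x, Real.exp (g' x) ∂ν ≤ I + Real.exp M * δ := by
    have h4 : ∫ x, Real.exp (g' x) ∂ν ≤ ∫ x, (Real.exp (F x) + Real.exp M * |F x - g' x|) ∂ν := by
      apply integral_mono hintg' (hintE.add ((hintd ν inferInstance).const_mul _))
      intro x
      exact exp_sub_exp_le (hg'M x)
    rw [integral_add hintE ((hintd ν inferInstance).const_mul _), integral_const_mul] at h4
    have h5 : Real.exp M * ∫ x, |F x - g' x| ∂ν ≤ Real.exp M * δ :=
      mul_le_mul_of_nonneg_left (by linarith) (Real.exp_pos _).le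
    linarith
  have hg'pos : 0 < ∫ x, Real.exp (g' x) ∂ν := by
    have h1 : ∫ _x, Real.exp (-M) ∂ν ≤ ∫ x, Real.exp (g' x) ∂ν := by
      apply integral_mono (integrable_const _) hintg'
      intro x
      exact Real.exp_le_exp.mpr (neg_le_of_abs_le (hg'M x))
    rw [integral_const, probReal_univ, one_smul] at h1
    exact lt_of_lt_of_le (Real.exp_pos _) h1
  have h6 : Real.log (∫ x, Real.exp (g' x) ∂ν) ≤ Real.log I + Real.exp M * δ / I := by
    have h7 : Real.log (∫ x, Real.exp (g' x) ∂ν) ≤ Real.log (I * (1 + Real.exp M * δ / I)) := by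
      apply Real.log_le_log hg'pos
      have : I * (1 + Real.exp M * δ / I) = I + Real.exp M * δ := by field_simp
      rw [this]
      exact h3
    rw [Real.log_mul hIpos.ne' (by positivity)] at h7
    have h8 := Real.log_le_sub_one_of_pos (show 0 < 1 + Real.exp M * δ / I by positivity)
    linarith
  have h9 := h g'
  have h10 : δ + Real.exp M * δ / I = ε := by
    have : δ + Real.exp M * δ / I = δ * (1 + Real.exp M / I) := by ring
    rw [this, hδ]
    field_simp
  linarith

/-- lower bound for the mass of sets which carry `μ` -/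
theorem dv_carrier {μ ν : Measure X} [IsProbabilityMeasure μ] [IsProbabilityMeasure ν] {L : ℝ}
    (h : ∀ F : X →ᵇ ℝ, ∫ x, F x ∂μ ≤ L + Real.log (∫ x, Real.exp (F x) ∂ν))
    {A : Set X} (hA : MeasurableSet A) (hμ : μ Aᶜ = 0) : Real.exp (-L) ≤ ν.real A := by
  -- test functions `-M 1_{Aᶜ}`
  have key : ∀ M : ℝ, 0 ≤ M → Real.exp (-L) ≤ ν.real A + Real.exp (-M) := by
    intro M hM
    have hmeas : Measurable (Aᶜ.indicator (fun _ : X => -M)) := measurable_const.indicator hA.compl
    have h1 := dv_bdd h hmeas (M := M) (fun x => by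
      by_cases hx : x ∈ Aᶜ
      · rw [Set.indicator_of_mem hx, abs_neg, abs_of_nonneg hM]
      · rw [Set.indicator_of_notMem hx, abs_zero]; exact hM)
    have h2 : ∫ x, Aᶜ.indicator (fun _ : X => -M) x ∂μ = 0 := by
      rw [integral_indicator hA.compl, setIntegral_const]
      simp [Measure.real, hμ]
    have h3 : ∫ x, Real.exp (Aᶜ.indicator (fun _ : X => -M) x) ∂ν ≤ ν.real A + Real.exp (-M) := by
      have h4 : ∀ x, Real.exp (Aᶜ.indicator (fun _ : X => -M) x)
          ≤ A.indicator (fun _ => (1 : ℝ)) x + Real.exp (-M) := by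
        intro x
        by_cases hx : x ∈ A
        · rw [Set.indicator_of_notMem (by simpa using hx), Set.indicator_of_mem hx, Real.exp_zero]
          linarith [Real.exp_pos (-M)]
        · rw [Set.indicator_of_mem (by simpa using hx), Set.indicator_of_notMem hx]
          linarith
      have h5 : Integrable (fun x => A.indicator (fun _ => (1 : ℝ)) x + Real.exp (-M)) ν :=
        ((integrable_const _).indicator hA).add (integrable_const _)
      refine le_trans (integral_mono_of_nonneg (ae_of_all _ (fun _ => (Real.exp_pos _).le)) h5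
        (ae_of_all _ h4)) ?_
      rw [integral_add ((integrable_const _).indicator hA) (integrable_const _),
        integral_indicator hA, setIntegral_const, integral_const, probReal_univ]
      simp
    rw [h2] at h1
    have h6 : 0 < ∫ x, Real.exp (Aᶜ.indicator (fun _ : X => -M) x) ∂ν := by
      have hb : Integrable (fun x => Real.exp (Aᶜ.indicator (fun _ : X => -M) x)) ν := by
        apply Integrable.of_bound (hmeas.exp).aestronglyMeasurable 1
        refine ae_of_all _ (fun x => ?_)
        rw [Real.norm_eq_abs, abs_of_pos (Real.exp_pos _)]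
        apply Real.exp_le_one_iff.mpr
        by_cases hx : x ∈ Aᶜ
        · rw [Set.indicator_of_mem hx]; linarith
        · rw [Set.indicator_of_notMem hx]
      have : ∫ _x, Real.exp (-M) ∂ν ≤ ∫ x, Real.exp (Aᶜ.indicator (fun _ : X => -M) x) ∂ν := by
        apply integral_mono (integrable_const _) hb
        intro x
        apply Real.exp_le_exp.mpr
        by_cases hx : x ∈ Aᶜ
        · rw [Set.indicator_of_mem hx]
        · rw [Set.indicator_of_notMem hx]; linarith
      rw [integral_const, probReal_univ, one_smul] at this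
      exact lt_of_lt_of_le (Real.exp_pos _) this
    have h7 : -L ≤ Real.log (∫ x, Real.exp (Aᶜ.indicator (fun _ : X => -M) x) ∂ν) := by linarith
    have h8 := Real.exp_le_exp.mpr h7
    rw [Real.exp_log h6] at h8
    linarith
  apply le_of_forall_pos_le_add
  intro ε hε
  obtain ⟨M, hM⟩ : ∃ M : ℝ, 0 ≤ M ∧ Real.exp (-M) ≤ ε := by
    refine ⟨max 0 (-Real.log ε), le_max_left _ _, ?_⟩
    have : -(max 0 (-Real.log ε)) ≤ Real.log ε := by
      have := le_max_right 0 (-Real.log ε)
      linarith
    calc Real.exp (-(max 0 (-Real.log ε))) ≤ Real.exp (Real.log ε) := Real.exp_le_exp.mpr this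
      _ = ε := Real.exp_log hε
  linarith [key M hM.1]

/-- the truncated logarithm of a nonnegative number -/
noncomputable def tl (M x : ℝ) : ℝ := Real.log (max (min x M) M⁻¹)

theorem tl_abs {M : ℝ} (hM : 1 ≤ M) (x : ℝ) : |tl M x| ≤ Real.log M := by
  have hM0 : 0 < M := by linarith
  have h1 : M⁻¹ ≤ max (min x M) M⁻¹ := le_max_right _ _
  have h2 : max (min x M) M⁻¹ ≤ M := max_le (min_le_right _ _)
    ((inv_le_one_of_one_le₀ hM).trans hM)
  have h3 : 0 < M⁻¹ := by positivity
  rw [abs_le, tl]
  refine ⟨?_, Real.log_le_log (by positivity) h2⟩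
  rw [← Real.log_inv]
  exact Real.log_le_log h3 h1

theorem dv_klDiv {μ ν : Measure X} [IsProbabilityMeasure μ] [IsProbabilityMeasure ν] {L : ℝ}
    (h : ∀ F : X →ᵇ ℝ, ∫ x, F x ∂μ ≤ L + Real.log (∫ x, Real.exp (F x) ∂ν)) :
    klDiv μ ν ≤ ENNReal.ofReal L := by
  -- absolute continuity
  have hac : μ ≪ ν := by
    refine Measure.AbsolutelyContinuous.mk (fun A hA hνA => ?_)
    by_contra hne
    have hpos : 0 < μ.real A := by
      rw [Measure.real, ENNReal.toReal_pos_iff]
      exact ⟨pos_iff_ne_zero.mpr hne, measure_lt_top _ _⟩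
    have key : ∀ M : ℝ, 0 ≤ M → M * μ.real A ≤ L := by
      intro M hM
      have hmeas : Measurable (A.indicator (fun _ : X => M)) := measurable_const.indicator hA
      have h1 := dv_bdd h hmeas (M := M) (fun x => by
        by_cases hx : x ∈ A
        · rw [Set.indicator_of_mem hx, abs_of_nonneg hM]
        · rw [Set.indicator_of_notMem hx, abs_zero]; exact hM)
      have h2 : ∫ x, A.indicator (fun _ : X => M) x ∂μ = M * μ.real A := by
        rw [integral_indicator hA, setIntegral_const, smul_eq_mul, mul_comm]
      have h3 : ∫ x, Real.exp (A.indicator (fun _ : X => M) x) ∂ν = 1 := by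
        have : (fun x => Real.exp (A.indicator (fun _ : X => M) x)) =ᵐ[ν] fun _ => 1 := by
          have h4 : ∀ᵐ x ∂ν, x ∉ A := measure_eq_zero_iff_ae_notMem.mp hνA
          filter_upwards [h4] with x hx
          rw [Set.indicator_of_notMem hx, Real.exp_zero]
        rw [integral_congr_ae this]
        simp
      rw [h2, h3, Real.log_one, add_zero] at h1
      exact h1
    have h1 := key ((|L| + 1) / μ.real A) (by positivity)
    rw [div_mul_cancel₀ _ hpos.ne'] at h1
    linarith [le_abs_self L]
  set f : X → ℝ := fun x => (μ.rnDeriv ν x).toReal with hf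
  have hfm : Measurable f := (Measure.measurable_rnDeriv μ ν).ennreal_toReal
  have hf0 : ∀ x, 0 ≤ f x := fun x => ENNReal.toReal_nonneg
  have hfint : Integrable f ν := Measure.integrable_toReal_rnDeriv
  have hf1 : ∫ x, f x ∂ν = 1 := by
    rw [hf, Measure.integral_toReal_rnDeriv hac, probReal_univ]
  rw [klDiv_eq_lintegral_klFun_of_ac hac]
  -- truncations
  set hM : ℕ → X → ℝ := fun k x => f x * tl (k + 3) (f x) + 1 - f x with hhM
  have htlm : ∀ M : ℝ, Measurable (fun x => tl M (f x)) := by
    intro M
    unfold tl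
    exact Real.measurable_log.comp ((hfm.min measurable_const).max measurable_const)
  have hnonneg : ∀ (k : ℕ) (x : X), 0 ≤ hM k x := by
    intro k x
    simp only [hhM, tl]
    set M : ℝ := (k : ℝ) + 3 with hMdef
    have hM3 : (3 : ℝ) ≤ M := by rw [hMdef]; linarith [Nat.cast_nonneg (α := ℝ) k]
    have hMinv : 0 < M⁻¹ := by positivity
    rcases le_or_gt (f x) M with hle | hgt
    · rw [min_eq_left hle]
      set c := max (f x) M⁻¹ with hc
      have hcpos : 0 < c := lt_of_lt_of_le hMinv (le_max_right _ _)
      have h1 : 1 - c⁻¹ ≤ Real.log c := Real.one_sub_inv_le_log_of_pos hcpos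
      have h2 : f x * (1 - c⁻¹) ≤ f x * Real.log c := mul_le_mul_of_nonneg_left h1 (hf0 x)
      have h3 : f x * c⁻¹ ≤ 1 := by
        rw [← div_eq_mul_inv, div_le_one hcpos]
        exact le_max_left _ _
      nlinarith
    · rw [min_eq_right hgt.le]
      have h4 : max M M⁻¹ = M := by
        apply max_eq_left
        have : M⁻¹ ≤ 1 := inv_le_one_of_one_le₀ (by linarith)
        linarith
      rw [h4]
      have h5 : 1 ≤ Real.log M := by
        rw [Real.le_log_iff_exp_le (by linarith)]
        have := Real.exp_one_lt_d9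
        linarith
      nlinarith [hf0 x]
  have hlim : ∀ x, Tendsto (fun k => hM k x) atTop (𝓝 (klFun (f x))) := by
    intro x
    rcases (hf0 x).eq_or_lt with h0 | hpos
    · have : ∀ k, hM k x = klFun (f x) := by
        intro k
        simp only [hhM, klFun, ← h0]
        simp
      simp only [this]
      exact tendsto_const_nhds
    · apply tendsto_const_nhds.congr'
      obtain ⟨N1, hN1⟩ := exists_nat_ge (f x)
      obtain ⟨N2, hN2⟩ := exists_nat_ge (f x)⁻¹
      filter_upwards [eventually_ge_atTop (max N1 N2)] with k hk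
      have hk1 : (N1 : ℝ) ≤ k := by exact_mod_cast (le_max_left _ _).trans hk
      have hk2 : (N2 : ℝ) ≤ k := by exact_mod_cast (le_max_right _ _).trans hk
      have e1 : min (f x) ((k : ℝ) + 3) = f x := min_eq_left (by linarith)
      have e2 : max (f x) ((k : ℝ) + 3)⁻¹ = f x := by
        apply max_eq_left
        rw [inv_le_comm₀ (by positivity) hpos]
        linarith
      simp only [hhM, tl, klFun, e1, e2]
  have hbound : ∀ k : ℕ, ∫⁻ x, ENNReal.ofReal (hM k x) ∂ν
      ≤ ENNReal.ofReal (L + ((k : ℝ) + 3)⁻¹) := by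
    intro k
    set M : ℝ := (k : ℝ) + 3 with hMdef
    have hM3 : (3 : ℝ) ≤ M := by rw [hMdef]; linarith [Nat.cast_nonneg (α := ℝ) k]
    have hMinv : 0 < M⁻¹ := by positivity
    have hint1 : Integrable (fun x => f x * tl M (f x)) ν := by
      have := hfint.bdd_mul (c := Real.log M) (f := fun x => tl M (f x))
        (htlm M).aestronglyMeasurable
        (ae_of_all _ (fun x => by simpa using tl_abs (by linarith : (1:ℝ) ≤ M) (f x)))
      refine this.congr (ae_of_all _ (fun x => ?_))
      simp only
      ring
    have hint : Integrable (fun x => hM k x) ν :=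
      (hint1.add (integrable_const 1)).sub hfint
    rw [← ofReal_integral_eq_lintegral_ofReal hint (ae_of_all _ (hnonneg k))]
    apply ENNReal.ofReal_le_ofReal
    have h1 : ∫ x, hM k x ∂ν = ∫ x, f x * tl M (f x) ∂ν := by
      have e1 : ∫ x, hM k x ∂ν = ∫ x, (f x * tl M (f x) + 1) ∂ν - ∫ x, f x ∂ν :=
        integral_sub (hint1.add (integrable_const 1)) hfint
      have e2 : ∫ x, (f x * tl M (f x) + 1) ∂ν = ∫ x, f x * tl M (f x) ∂ν + ∫ _x, (1 : ℝ) ∂ν :=
        integral_add hint1 (integrable_const 1)
      rw [e1, e2, hf1]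
      simp
    rw [h1]
    have h2 : ∫ x, f x * tl M (f x) ∂ν = ∫ x, tl M (f x) ∂μ :=
      integral_toReal_rnDeriv_mul hac
    rw [h2]
    have h3 := dv_bdd h (htlm M) (M := Real.log M) (fun x => tl_abs (by linarith) (f x))
    have h4 : ∫ x, Real.exp (tl M (f x)) ∂ν ≤ 1 + M⁻¹ := by
      have h5 : ∀ x, Real.exp (tl M (f x)) ≤ f x + M⁻¹ := by
        intro x
        rw [tl, Real.exp_log (lt_of_lt_of_le hMinv (le_max_right _ _))]
        apply max_le
        · exact (min_le_left _ _).trans (by linarith)
        · linarith [hf0 x]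
      have hadd : Integrable (fun x => f x + M⁻¹) ν := hfint.add (integrable_const _)
      refine le_trans (integral_mono_of_nonneg (ae_of_all _ (fun _ => (Real.exp_pos _).le))
        hadd (ae_of_all _ h5)) ?_
      rw [integral_add hfint (integrable_const _), hf1]
      simp
    have h6 : 0 < ∫ x, Real.exp (tl M (f x)) ∂ν := by
      have hb : Integrable (fun x => Real.exp (tl M (f x))) ν := by
        apply Integrable.of_bound ((htlm M).exp).aestronglyMeasurable (Real.exp (Real.log M))
        refine ae_of_all _ (fun x => ?_)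
        rw [Real.norm_eq_abs, abs_of_pos (Real.exp_pos _)]
        exact Real.exp_le_exp.mpr ((le_abs_self _).trans (tl_abs (by linarith) _))
      have : ∫ _x, Real.exp (-Real.log M) ∂ν ≤ ∫ x, Real.exp (tl M (f x)) ∂ν := by
        apply integral_mono (integrable_const _) hb
        intro x
        exact Real.exp_le_exp.mpr (neg_le_of_abs_le (tl_abs (by linarith) _))
      rw [integral_const, probReal_univ, one_smul] at this
      exact lt_of_lt_of_le (Real.exp_pos _) this
    have h7 := Real.log_le_sub_one_of_pos h6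
    linarith
  -- Fatou
  calc ∫⁻ x, ENNReal.ofReal (klFun (f x)) ∂ν
      = ∫⁻ x, liminf (fun k => ENNReal.ofReal (hM k x)) atTop ∂ν := by
        apply lintegral_congr
        intro x
        exact ((ENNReal.continuous_ofReal.tendsto _).comp (hlim x)).liminf_eq.symm
    _ ≤ liminf (fun k => ∫⁻ x, ENNReal.ofReal (hM k x) ∂ν) atTop := by
        apply lintegral_liminf_le
        intro k
        exact (((hfm.mul (htlm _)).add_const 1).sub hfm).ennreal_ofReal
    _ ≤ liminf (fun k : ℕ => ENNReal.ofReal (L + ((k : ℝ) + 3)⁻¹)) atTop :=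
        liminf_le_liminf (Eventually.of_forall hbound)
    _ = ENNReal.ofReal L := by
        apply Tendsto.liminf_eq
        apply (ENNReal.continuous_ofReal.tendsto _).comp
        have : Tendsto (fun k : ℕ => L + ((k : ℝ) + 3)⁻¹) atTop (𝓝 (L + 0)) := by
          apply tendsto_const_nhds.add
          apply tendsto_inv_atTop_zero.comp
          exact tendsto_atTop_add_const_right _ _ tendsto_natCast_atTop_atTop
        rwa [add_zero] at this

end Pool.Agent.H96.OT
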