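import Mathlib

/-!
Definitions for MP_91df8f_pr: empirical optimal plans for the Euclidean cost between the uniform
laws on `[0,1]²` and `[2,3] × [0,1]`.
-/

set_option autoImplicit false

open MeasureTheory ProbabilityTheory
open scoped ENNReal

namespace Pool.Agent.H96.OT

/-- The plane `ℝ²`. -/
abbrev Pl : Type := ℝ × ℝ

/-- The Euclidean distance `‖x - y‖` in the plane. -/
noncomputable def cost (x y : Pl) : ℝ := Real.sqrt ((x.1 - y.1) ^ 2 + (x.2 - y.2) ^ 2)

/-- The uniform probability measure on the unit square `[l, l+1] × [0, 1]`. -/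
noncomputable def unif (l : ℝ) : Measure Pl :=
  volume.restrict (Set.Icc l (l + 1) ×ˢ Set.Icc (0 : ℝ) 1)

/-- `X 0, X 1, …` are i.i.d. uniform on `[0,1]²`, `Y 0, Y 1, …` are i.i.d. uniform on
`[2,3] × [0,1]`, and the two samples are independent. -/
structure IsSample {Ω : Type} [MeasurableSpace Ω] (P : Measure Ω) (X Y : ℕ → Ω → Pl) : Prop where
  measX : ∀ i, Measurable (X i)
  measY : ∀ i, Measurable (Y i)
  lawX : ∀ i, P.map (X i) = unif 0
  lawY : ∀ i, P.map (Y i) = unif 2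
  indep : iIndepFun (fun k : ℕ ⊕ ℕ => Sum.elim X Y k) P

/-- The empirical measure `(1/n) ∑_{i < n} δ_{x i}`. -/
noncomputable def emp (n : ℕ) (x : ℕ → Pl) : Measure Pl :=
  (n : ℝ≥0∞)⁻¹ • ∑ i : Fin n, Measure.dirac (x i)

/-- `π` is a coupling of `α` and `β`. -/
def IsCoupling (α β : Measure Pl) (π : Measure (Pl × Pl)) : Prop :=
  π.map Prod.fst = α ∧ π.map Prod.snd = β

/-- `π` is an optimal plan between `α` and `β` for the Euclidean cost. -/
def IsOptimalPlan (α β : Measure Pl) (π : Measure (Pl × Pl)) : Prop :=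
  IsCoupling α β π ∧ ∀ π' : Measure (Pl × Pl), IsCoupling α β π' →
    ∫⁻ p, ENNReal.ofReal (cost p.1 p.2) ∂π ≤ ∫⁻ p, ENNReal.ofReal (cost p.1 p.2) ∂π'

/-- The coupling of the uniform laws on `[0,1]²` and `[2,3] × [0,1]` which has equal vertical
coordinates and independent horizontal coordinates: the law of `((a, y), (c, y))` for
`(a, c, y)` uniform in `[0,1] × [2,3] × [0,1]`. -/
noncomputable def indepPlan : Measure (Pl × Pl) :=
  (volume.restrict (Set.Icc (0 : ℝ) 1 ×ˢ Set.Icc (2 : ℝ) 3 ×ˢ Set.Icc (0 : ℝ) 1)).map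
    (fun t : ℝ × ℝ × ℝ => (((t.1, t.2.2), (t.2.1, t.2.2)) : Pl × Pl))

end Pool.Agent.H96.OT
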