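import Pool.Agent.H96.OT.Count

set_option autoImplicit false

open MeasureTheory
open scoped ENNReal

namespace Pool.Agent.H96.OT

/-! ### Domination of product measures -/

theorem pi_domination {α β : Type} [MeasurableSpace α] [MeasurableSpace β] (κ : Measure α)
    [SigmaFinite κ] (ν : Measure β) [SigmaFinite ν] {Φ : α → β} (hΦ : Measurable Φ)
    {w : α → ℝ≥0∞} (hw : Measurable w)
    (H : ∀ g : β → ℝ≥0∞, Measurable g → ∫⁻ a, g (Φ a) * w a ∂κ ≤ ∫⁻ b, g b ∂ν) :
    ∀ (n : ℕ) (g : (Fin n → β) → ℝ≥0∞), Measurable g →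
      ∫⁻ x, g (fun i => Φ (x i)) * ∏ i, w (x i) ∂(Measure.pi (fun _ : Fin n => κ))
        ≤ ∫⁻ y, g y ∂(Measure.pi (fun _ : Fin n => ν)) := by
  intro n
  induction n with
  | zero =>
    intro g hg
    rw [Measure.pi_of_empty (fun _ : Fin 0 => κ) Fin.elim0,
      Measure.pi_of_empty (fun _ : Fin 0 => ν) Fin.elim0, lintegral_dirac, lintegral_dirac]
    simp only [Finset.univ_eq_empty, Finset.prod_empty, mul_one]
    apply le_of_eq
    congr 1
    exact Subsingleton.elim _ _
  | succ n ih =>
    intro g hg
    have hmpκ := (measurePreserving_piFinSuccAbove (fun _ : Fin (n + 1) => κ) 0).symm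
    have hmpν := (measurePreserving_piFinSuccAbove (fun _ : Fin (n + 1) => ν) 0).symm
    have hcons : ∀ {γ : Type} [MeasurableSpace γ] (p : γ × (Fin n → γ)),
        (MeasurableEquiv.piFinSuccAbove (fun _ : Fin (n + 1) => γ) 0).symm p
          = Fin.cons p.1 p.2 := by
      intro γ _ p
      change (Fin.insertNth (α := fun _ => γ) 0 p.1 p.2 : Fin (n + 1) → γ) = _
      rw [Fin.insertNth_zero]
      rfl
    have hmcons : Measurable (fun p : β × (Fin n → β) => (Fin.cons p.1 p.2 : Fin (n + 1) → β)) := by
      have h := (MeasurableEquiv.piFinSuccAbove (fun _ : Fin (n + 1) => β) 0).symm.measurable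
      have e : (⇑(MeasurableEquiv.piFinSuccAbove (fun _ : Fin (n + 1) => β) 0).symm
          : β × (Fin n → β) → (Fin (n + 1) → β)) = fun p => Fin.cons p.1 p.2 := by
        funext p
        exact hcons p
      rwa [e] at h
    rw [hmpκ.lintegral_map_equiv, hmpν.lintegral_map_equiv]
    simp only [hcons]
    have hgm : Measurable (fun p : β × (Fin n → β) => g (Fin.cons p.1 p.2)) := hg.comp hmcons
    rw [lintegral_prod (f := fun p : β × (Fin n → β) => g (Fin.cons p.1 p.2)) hgm.aemeasurable]
    have hstep : ∀ p : α × (Fin n → α),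
        g (fun i => Φ ((Fin.cons p.1 p.2 : Fin (n + 1) → α) i))
          * ∏ i, w ((Fin.cons p.1 p.2 : Fin (n + 1) → α) i)
        = g (Fin.cons (Φ p.1) (fun i => Φ (p.2 i))) * (∏ i, w (p.2 i)) * w p.1 := by
      intro p
      rw [Fin.prod_univ_succ]
      simp only [Fin.cons_zero, Fin.cons_succ]
      have : (fun i => Φ ((Fin.cons p.1 p.2 : Fin (n + 1) → α) i))
          = Fin.cons (Φ p.1) (fun i => Φ (p.2 i)) := by
        funext i
        refine Fin.cases ?_ (fun j => ?_) i
        · simp
        · simp
      rw [this]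
      ring
    simp only [hstep]
    have hmΦ : Measurable (fun x : Fin n → α => fun i => Φ (x i)) := by
      fun_prop
    have hmeas : Measurable (fun p : α × (Fin n → α) =>
        g (Fin.cons (Φ p.1) (fun i => Φ (p.2 i))) * (∏ i, w (p.2 i)) * w p.1) := by
      apply Measurable.mul _ (hw.comp measurable_fst)
      apply Measurable.mul
      · exact hgm.comp ((hΦ.comp measurable_fst).prodMk (hmΦ.comp measurable_snd))
      · exact Finset.measurable_prod _ (fun i _ => hw.comp
          ((measurable_pi_apply i).comp measurable_snd))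
    rw [lintegral_prod _ hmeas.aemeasurable]
    set K : β → ℝ≥0∞ := fun b => ∫⁻ y, g (Fin.cons b y) ∂(Measure.pi (fun _ : Fin n => ν)) with hK
    have hKm : Measurable K := hgm.lintegral_prod_right'
    calc ∫⁻ a, ∫⁻ x, g (Fin.cons (Φ a) (fun i => Φ (x i))) * (∏ i, w (x i)) * w a
          ∂(Measure.pi (fun _ : Fin n => κ)) ∂κ
        = ∫⁻ a, (∫⁻ x, g (Fin.cons (Φ a) (fun i => Φ (x i))) * (∏ i, w (x i))
          ∂(Measure.pi (fun _ : Fin n => κ))) * w a ∂κ := by
          apply lintegral_congr
          intro a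
          rw [lintegral_mul_const]
          apply Measurable.mul
          · exact hgm.comp (measurable_const.prodMk hmΦ)
          · exact Finset.measurable_prod _ (fun i _ => hw.comp (measurable_pi_apply i))
      _ ≤ ∫⁻ a, K (Φ a) * w a ∂κ := by
          apply lintegral_mono
          intro a
          apply mul_le_mul_left
          exact ih (fun y => g (Fin.cons (Φ a) y)) (hgm.comp (measurable_const.prodMk measurable_id))
      _ ≤ ∫⁻ b, K b ∂ν := H K hKm

/-! ### Change of variables -/

theorem lintegral_scale (φ : ℝ → ℝ≥0∞) (hφ : Measurable φ) (b : ℝ) {h : ℝ} (hh : 0 < h) :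
    ∫⁻ s, φ (b + h * s) = ENNReal.ofReal h⁻¹ * ∫⁻ d, φ d := by
  have h1 : ∫⁻ s, φ (b + h * s) = ∫⁻ t, φ (b + t) ∂(Measure.map (fun s : ℝ => h * s) volume) := by
    rw [lintegral_map (f := fun t => φ (b + t)) (hφ.comp (measurable_const_add b))
      (measurable_const_mul h)]
  rw [h1, Real.map_volume_mul_left hh.ne', lintegral_smul_measure, smul_eq_mul,
    abs_of_pos (inv_pos.mpr hh)]
  congr 1
  exact lintegral_add_left_eq_self φ b

theorem inner_change {a c : ℝ} (ha : a ∈ Set.Icc (0 : ℝ) 1) (hc : c ∈ Set.Icc (2 : ℝ) 3)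
    (G : ℝ → ℝ → ℝ≥0∞) (hG : Measurable (Function.uncurry G)) :
    ∫⁻ b in Set.Icc (0 : ℝ) 1, ∫⁻ d in Set.Icc (0 : ℝ) 1,
      G (ht 1 (a, b) (c, d)) (ht 2 (a, b) (c, d)) * ENNReal.ofReal (c - a)⁻¹
    ≤ ∫⁻ y in Set.Icc (0 : ℝ) 1, ∫⁻ z in Set.Icc (0 : ℝ) 1, G y z := by
  have hh : 0 < c - a := by linarith [ha.2, hc.1]
  set h := c - a with hhdef
  set I : Set ℝ := Set.Icc (0 : ℝ) 1 with hI
  have hIm : MeasurableSet I := measurableSet_Icc
  have hdiv : ∀ b d : ℝ, d = b + h * ((d - b) / h) := by
    intro b d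
    field_simp
    ring
  have hht : ∀ t b s : ℝ, ht t (a, b) (c, b + h * s) = b + (t - a) * s := by
    intro t b s
    simp only [ht]
    rw [add_sub_cancel_left, ← hhdef, mul_div_cancel_left₀ _ hh.ne']
  -- the integrand as a function on the whole line
  have hGm : ∀ t1 t2 : ℝ, Measurable (fun p : ℝ × ℝ => G (p.1 + t1 * p.2) (p.1 + t2 * p.2)) := by
    intro t1 t2
    have : Measurable (fun p : ℝ × ℝ => (p.1 + t1 * p.2, p.1 + t2 * p.2)) := by fun_prop
    exact hG.comp this
  calc ∫⁻ b in I, ∫⁻ d in I, G (ht 1 (a, b) (c, d)) (ht 2 (a, b) (c, d)) * ENNReal.ofReal h⁻¹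
      = ∫⁻ b in I, ∫⁻ s, I.indicator (fun _ => G (b + (1 - a) * s) (b + (2 - a) * s))
          (b + h * s) := by
        apply lintegral_congr
        intro b
        set φ : ℝ → ℝ≥0∞ := I.indicator (fun d => G (ht 1 (a, b) (c, d)) (ht 2 (a, b) (c, d)))
          with hφ
        have hφm : Measurable φ := by
          apply Measurable.indicator _ hIm
          have : Measurable (fun d : ℝ => (ht 1 (a, b) (c, d), ht 2 (a, b) (c, d))) := by
            simp only [ht]
            fun_prop
          exact hG.comp this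
        rw [lintegral_mul_const' _ _ ENNReal.ofReal_ne_top, ← lintegral_indicator hIm, mul_comm,
          ← lintegral_scale φ hφm b hh]
        apply lintegral_congr
        intro s
        simp only [hφ, Set.indicator_apply, hht]
    _ ≤ ∫⁻ b, ∫⁻ s, I.indicator (fun _ => I.indicator
          (fun _ => G (b + (1 - a) * s) (b + (1 - a) * s + s)) (b + (1 - a) * s + s))
          (b + (1 - a) * s) := by
        rw [← lintegral_indicator hIm]
        apply lintegral_mono
        intro b
        by_cases hb : b ∈ I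
        · rw [Set.indicator_of_mem hb]
          apply lintegral_mono
          intro s
          simp only [Set.indicator_apply]
          by_cases hd : b + h * s ∈ I
          · have h1 : b + (1 - a) * s ∈ I := by
              have e : b + (1 - a) * s = (1 - (1 - a) / h) * b + ((1 - a) / h) * (b + h * s) := by
                field_simp
                ring
              rw [e]
              have h2 : 0 ≤ (1 - a) / h := div_nonneg (by linarith [ha.2]) hh.le
              have h3 : (1 - a) / h ≤ 1 := by
                rw [div_le_one hh]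
                linarith [hc.1]
              exact (convex_Icc (0:ℝ) 1) hb hd (by linarith) h2 (by ring)
            have h4 : b + (1 - a) * s + s ∈ I := by
              have e : b + (1 - a) * s + s
                  = (1 - (2 - a) / h) * b + ((2 - a) / h) * (b + h * s) := by
                field_simp
                ring
              rw [e]
              have h2 : 0 ≤ (2 - a) / h := div_nonneg (by linarith [ha.2]) hh.le
              have h3 : (2 - a) / h ≤ 1 := by
                rw [div_le_one hh]
                linarith [hc.1]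
              exact (convex_Icc (0:ℝ) 1) hb hd (by linarith) h2 (by ring)
            rw [if_pos hd, if_pos h1, if_pos h4]
            have e2 : b + (2 - a) * s = b + (1 - a) * s + s := by ring
            rw [e2]
          · rw [if_neg hd]
            exact zero_le
        · rw [Set.indicator_of_notMem hb]
          exact zero_le
    _ = ∫⁻ s, ∫⁻ b, I.indicator (fun _ => I.indicator
          (fun _ => G (b + (1 - a) * s) (b + (1 - a) * s + s)) (b + (1 - a) * s + s))
          (b + (1 - a) * s) := by
        apply lintegral_lintegral_swap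
        have e : (Function.uncurry fun b s : ℝ => I.indicator (fun _ => I.indicator
          (fun _ => G (b + (1 - a) * s) (b + (1 - a) * s + s)) (b + (1 - a) * s + s))
          (b + (1 - a) * s)) = fun p : ℝ × ℝ =>
            ({p : ℝ × ℝ | p.1 + (1 - a) * p.2 ∈ I} ∩
              {p : ℝ × ℝ | p.1 + (1 - a) * p.2 + p.2 ∈ I}).indicator
              (fun p => G (p.1 + (1 - a) * p.2) (p.1 + (2 - a) * p.2)) p := by
          funext p
          simp only [Function.uncurry, Set.indicator_apply, Set.mem_inter_iff, Set.mem_ofPred_eq]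
          by_cases h1 : p.1 + (1 - a) * p.2 ∈ I
          · by_cases h2 : p.1 + (1 - a) * p.2 + p.2 ∈ I
            · rw [if_pos h1, if_pos h2, if_pos ⟨h1, h2⟩]
              congr 1
              ring
            · rw [if_pos h1, if_neg h2, if_neg (fun h => h2 h.2)]
          · rw [if_neg h1, if_neg (fun h => h1 h.1)]
        rw [e]
        apply Measurable.aemeasurable
        apply (hGm _ _).indicator
        apply MeasurableSet.inter
        · exact hIm.preimage (by fun_prop)
        · exact hIm.preimage (by fun_prop)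
    _ = ∫⁻ s, ∫⁻ y, I.indicator (fun _ => I.indicator (fun _ => G y (y + s)) (y + s)) y := by
        apply lintegral_congr
        intro s
        exact lintegral_add_right_eq_self
          (fun y => I.indicator (fun _ => I.indicator (fun _ => G y (y + s)) (y + s)) y)
          ((1 - a) * s)
    _ = ∫⁻ y, ∫⁻ s, I.indicator (fun _ => I.indicator (fun _ => G y (y + s)) (y + s)) y := by
        apply lintegral_lintegral_swap
        have e : (Function.uncurry fun s y : ℝ => I.indicator (fun _ => I.indicator
          (fun _ => G y (y + s)) (y + s)) y) = fun p : ℝ × ℝ =>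
            ({p : ℝ × ℝ | p.2 ∈ I} ∩ {p : ℝ × ℝ | p.2 + p.1 ∈ I}).indicator
              (fun p => G p.2 (p.2 + p.1)) p := by
          funext p
          simp only [Function.uncurry, Set.indicator_apply, Set.mem_inter_iff, Set.mem_ofPred_eq]
          by_cases h1 : p.2 ∈ I
          · by_cases h2 : p.2 + p.1 ∈ I
            · rw [if_pos h1, if_pos h2, if_pos ⟨h1, h2⟩]
            · rw [if_pos h1, if_neg h2, if_neg (fun h => h2 h.2)]
          · rw [if_neg h1, if_neg (fun h => h1 h.1)]
        rw [e]
        apply Measurable.aemeasurable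
        apply Measurable.indicator
        · have : Measurable (fun p : ℝ × ℝ => (p.2, p.2 + p.1)) := by fun_prop
          exact hG.comp this
        · apply MeasurableSet.inter
          · exact hIm.preimage (by fun_prop)
          · exact hIm.preimage (by fun_prop)
    _ = ∫⁻ y in I, ∫⁻ z in I, G y z := by
        rw [← lintegral_indicator hIm]
        apply lintegral_congr
        intro y
        by_cases hy : y ∈ I
        · simp only [Set.indicator_of_mem hy]
          rw [← lintegral_indicator hIm]
          have := lintegral_add_left_eq_self (μ := volume) (I.indicator (fun z => G y z)) y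
          rw [← this]
          apply lintegral_congr
          intro s
          simp only [Set.indicator_apply]
        · simp only [Set.indicator_of_notMem hy, lintegral_zero]

/-! ### The first moment bound -/

theorem unif_eq (l : ℝ) : unif l = (volume.restrict (Set.Icc l (l + 1))).prod
    (volume.restrict (Set.Icc (0 : ℝ) 1)) := by
  rw [Measure.prod_restrict]
  rfl

/-- Lebesgue measure on `[0,1]` -/
noncomputable def lebA : Measure ℝ := volume.restrict (Set.Icc (0 : ℝ) 1)

/-- Lebesgue measure on `[2,3]` -/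
noncomputable def lebC : Measure ℝ := volume.restrict (Set.Icc (2 : ℝ) 3)

instance : IsProbabilityMeasure lebA := ⟨by simp [lebA]⟩

instance : IsProbabilityMeasure lebC := ⟨by
  rw [lebC, Measure.restrict_apply_univ, Real.volume_Icc]
  norm_num⟩

instance : NullSingletonClass lebA := by
  unfold lebA
  infer_instance

theorem unif_zero : unif 0 = lebA.prod lebA := by
  rw [unif_eq, zero_add]
  rfl

theorem unif_two : unif 2 = lebC.prod lebA := by
  rw [unif_eq]
  norm_num
  rfl

instance : IsProbabilityMeasure (unif 0) := by rw [unif_zero]; infer_instance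

instance : IsProbabilityMeasure (unif 2) := by rw [unif_two]; infer_instance

/-- the density of the first marginal of the dominating measure -/
noncomputable def qF (F : ℝ × ℝ × ℝ → ℝ) (y : ℝ) : ℝ≥0∞ :=
  ∫⁻ a, ∫⁻ c, ENNReal.ofReal (Real.exp (F (a, c, y))) ∂lebC ∂lebA

/-- the weight -/
noncomputable def wF (F : ℝ × ℝ × ℝ → ℝ) (p : Pl × Pl) : ℝ≥0∞ :=
  ENNReal.ofReal (Real.exp (F (p.1.1, p.2.1, ht 1 p.1 p.2)) * (p.2.1 - p.1.1)⁻¹)

theorem measurable_ht (t : ℝ) : Measurable (fun p : Pl × Pl => ht t p.1 p.2) := by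
  unfold ht
  fun_prop

theorem measurable_wF {F : ℝ × ℝ × ℝ → ℝ} (hF : Measurable F) : Measurable (wF F) := by
  unfold wF
  apply Measurable.ennreal_ofReal
  apply Measurable.mul
  · apply Measurable.exp
    apply hF.comp
    exact (measurable_fst.comp measurable_fst).prodMk
      ((measurable_fst.comp measurable_snd).prodMk (measurable_ht 1))
  · fun_prop

theorem measurable_qF {F : ℝ × ℝ × ℝ → ℝ} (hF : Measurable F) : Measurable (qF F) := by
  unfold qF
  have h1 : Measurable (fun p : (ℝ × ℝ) × ℝ =>
      ENNReal.ofReal (Real.exp (F (p.1.2, p.2, p.1.1)))) := by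
    apply Measurable.ennreal_ofReal
    apply Measurable.exp
    apply hF.comp
    fun_prop
  have h2 : Measurable (fun p : ℝ × ℝ =>
      ∫⁻ c, ENNReal.ofReal (Real.exp (F (p.2, c, p.1))) ∂lebC) := h1.lintegral_prod_right'
  exact h2.lintegral_prod_right'

theorem change_bound {F : ℝ × ℝ × ℝ → ℝ} (hF : Measurable F) (g : ℝ × ℝ → ℝ≥0∞)
    (hg : Measurable g) :
    ∫⁻ p, g (ht 1 p.1 p.2, ht 2 p.1 p.2) * wF F p ∂((unif 0).prod (unif 2))
      ≤ ∫⁻ q, g q ∂((lebA.withDensity (qF F)).prod lebA) := by
  have hwm := measurable_wF hF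
  have hqm := measurable_qF hF
  have hfm : Measurable (fun p : Pl × Pl => g (ht 1 p.1 p.2, ht 2 p.1 p.2) * wF F p) := by
    apply Measurable.mul _ hwm
    exact hg.comp ((measurable_ht 1).prodMk (measurable_ht 2))
  -- iterated integrals
  have h1 : ∫⁻ p, g (ht 1 p.1 p.2, ht 2 p.1 p.2) * wF F p ∂((unif 0).prod (unif 2))
      = ∫⁻ a, ∫⁻ c, ∫⁻ b, ∫⁻ d, g (ht 1 (a, b) (c, d), ht 2 (a, b) (c, d))
        * wF F ((a, b), (c, d)) ∂lebA ∂lebA ∂lebC ∂lebA := by
    rw [lintegral_prod _ hfm.aemeasurable]
    have hm1 : Measurable (fun x : Pl => ∫⁻ y : Pl, g (ht 1 x y, ht 2 x y) * wF F (x, y)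
        ∂(unif 2)) := hfm.lintegral_prod_right'
    rw [unif_zero, lintegral_prod _ hm1.aemeasurable]
    apply lintegral_congr
    intro a
    have h2 : ∀ b : ℝ, ∫⁻ y : Pl, g (ht 1 (a, b) y, ht 2 (a, b) y) * wF F ((a, b), y) ∂(unif 2)
        = ∫⁻ c, ∫⁻ d, g (ht 1 (a, b) (c, d), ht 2 (a, b) (c, d))
        * wF F ((a, b), (c, d)) ∂lebA ∂lebC := by
      intro b
      rw [unif_two, lintegral_prod]
      exact (hfm.comp (measurable_const.prodMk measurable_id)).aemeasurable
    simp only [h2]
    apply lintegral_lintegral_swap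
    apply Measurable.aemeasurable
    have h3 : Measurable (fun q : (ℝ × ℝ) × ℝ => g (ht 1 (a, q.1.1) (q.1.2, q.2),
        ht 2 (a, q.1.1) (q.1.2, q.2)) * wF F ((a, q.1.1), (q.1.2, q.2))) :=
      hfm.comp (f := fun q : (ℝ × ℝ) × ℝ => (((a, q.1.1), (q.1.2, q.2)) : Pl × Pl))
        (by fun_prop)
    exact h3.lintegral_prod_right'
  -- the inner change of variables
  have h2 : ∀ᵐ a ∂lebA, ∀ᵐ c ∂lebC, ∫⁻ b, ∫⁻ d, g (ht 1 (a, b) (c, d), ht 2 (a, b) (c, d))
        * wF F ((a, b), (c, d)) ∂lebA ∂lebA
      ≤ ∫⁻ y, ∫⁻ z, g (y, z) * ENNReal.ofReal (Real.exp (F (a, c, y))) ∂lebA ∂lebA := by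
    have ha : ∀ᵐ a ∂lebA, a ∈ Set.Icc (0 : ℝ) 1 := ae_restrict_mem measurableSet_Icc
    have hc : ∀ᵐ c ∂lebC, c ∈ Set.Icc (2 : ℝ) 3 := ae_restrict_mem measurableSet_Icc
    filter_upwards [ha] with a ha
    filter_upwards [hc] with c hc
    have hpos : 0 < c - a := by linarith [ha.2, hc.1]
    have hGm : Measurable (Function.uncurry (fun y z : ℝ =>
        g (y, z) * ENNReal.ofReal (Real.exp (F (a, c, y))))) := by
      apply Measurable.mul
      · exact hg.comp (measurable_fst.prodMk measurable_snd)
      · apply Measurable.ennreal_ofReal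
        apply Measurable.exp
        apply hF.comp
        fun_prop
    have h3 := inner_change ha hc (fun y z => g (y, z) * ENNReal.ofReal (Real.exp (F (a, c, y))))
      hGm
    refine le_trans (le_of_eq ?_) h3
    apply lintegral_congr
    intro b
    apply lintegral_congr
    intro d
    unfold wF
    simp only
    rw [mul_assoc, ← ENNReal.ofReal_mul (Real.exp_pos _).le]
  rw [h1]
  have hkm : Measurable (fun y : ℝ => ∫⁻ z, g (y, z) ∂lebA) := hg.lintegral_prod_right'
  have hEm : ∀ a : ℝ, Measurable (Function.uncurry fun c y : ℝ =>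
      (∫⁻ z, g (y, z) ∂lebA) * ENNReal.ofReal (Real.exp (F (a, c, y)))) := by
    intro a
    apply Measurable.mul
    · exact hkm.comp measurable_snd
    · apply Measurable.ennreal_ofReal
      apply Measurable.exp
      apply hF.comp
      fun_prop
  calc ∫⁻ a, ∫⁻ c, ∫⁻ b, ∫⁻ d, g (ht 1 (a, b) (c, d), ht 2 (a, b) (c, d))
        * wF F ((a, b), (c, d)) ∂lebA ∂lebA ∂lebC ∂lebA
      ≤ ∫⁻ a, ∫⁻ c, ∫⁻ y, ∫⁻ z, g (y, z) * ENNReal.ofReal (Real.exp (F (a, c, y)))
          ∂lebA ∂lebA ∂lebC ∂lebA := by
        apply lintegral_mono_ae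
        filter_upwards [h2] with a ha
        exact lintegral_mono_ae ha
    _ = ∫⁻ a, ∫⁻ c, ∫⁻ y, (∫⁻ z, g (y, z) ∂lebA) * ENNReal.ofReal (Real.exp (F (a, c, y)))
          ∂lebA ∂lebC ∂lebA := by
        apply lintegral_congr; intro a
        apply lintegral_congr; intro c
        apply lintegral_congr; intro y
        rw [lintegral_mul_const' _ _ ENNReal.ofReal_ne_top]
    _ = ∫⁻ a, ∫⁻ y, (∫⁻ z, g (y, z) ∂lebA) * (∫⁻ c, ENNReal.ofReal (Real.exp (F (a, c, y)))
          ∂lebC) ∂lebA ∂lebA := by
        apply lintegral_congr; intro a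
        rw [lintegral_lintegral_swap (hEm a).aemeasurable]
        apply lintegral_congr; intro y
        rw [lintegral_const_mul]
        apply Measurable.ennreal_ofReal
        apply Measurable.exp
        apply hF.comp
        fun_prop
    _ = ∫⁻ y, ∫⁻ a, (∫⁻ z, g (y, z) ∂lebA) * (∫⁻ c, ENNReal.ofReal (Real.exp (F (a, c, y)))
          ∂lebC) ∂lebA ∂lebA := by
        apply lintegral_lintegral_swap
        apply Measurable.aemeasurable
        apply Measurable.mul
        · exact hkm.comp measurable_snd
        · have h3 : Measurable (fun p : (ℝ × ℝ) × ℝ =>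
              ENNReal.ofReal (Real.exp (F (p.1.1, p.2, p.1.2)))) := by
            apply Measurable.ennreal_ofReal
            apply Measurable.exp
            apply hF.comp
            fun_prop
          exact h3.lintegral_prod_right'
    _ = ∫⁻ y, qF F y * ∫⁻ z, g (y, z) ∂lebA ∂lebA := by
        apply lintegral_congr; intro y
        rw [lintegral_const_mul, mul_comm]
        · rfl
        · have h3 : Measurable (fun p : ℝ × ℝ =>
              ENNReal.ofReal (Real.exp (F (p.1, p.2, y)))) := by
            apply Measurable.ennreal_ofReal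
            apply Measurable.exp
            apply hF.comp
            fun_prop
          exact h3.lintegral_prod_right'
    _ = ∫⁻ y, ∫⁻ z, g (y, z) ∂lebA ∂(lebA.withDensity (qF F)) := by
        rw [lintegral_withDensity_eq_lintegral_mul _ hqm hkm]
        rfl
    _ = ∫⁻ q, g q ∂((lebA.withDensity (qF F)).prod lebA) := by
        rw [lintegral_prod _ hg.aemeasurable]

theorem first_moment {F : ℝ × ℝ × ℝ → ℝ} (hF : Measurable F) (hfin : ∫⁻ y, qF F y ∂lebA ≠ ⊤)
    (n : ℕ) :
    (n.factorial : ℝ≥0∞) * ∫⁻ w : Fin n → Pl × Pl,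
      {w | SameOrder w}.indicator (fun w => ∏ i, wF F (w i)) w
        ∂(Measure.pi (fun _ : Fin n => (unif 0).prod (unif 2)))
      ≤ (∫⁻ y, qF F y ∂lebA) ^ n := by
  classical
  set ν₁ := lebA.withDensity (qF F) with hν₁
  have hfm : IsFiniteMeasure ν₁ := isFiniteMeasure_withDensity hfin
  have hns : NullSingletonClass ν₁ :=
    ⟨fun x => withDensity_absolutelyContinuous _ _ (measure_singleton x)⟩
  set Cm : Set (Fin n → ℝ × ℝ) := {w | ∀ i j, 0 ≤ ((w i).1 - (w j).1) * ((w i).2 - (w j).2)}
    with hCm
  have hCmm : MeasurableSet Cm := by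
    have : Cm = ⋂ i, ⋂ j, {w : Fin n → ℝ × ℝ |
        0 ≤ ((w i).1 - (w j).1) * ((w i).2 - (w j).2)} := by
      ext p
      simp [hCm]
    rw [this]
    refine MeasurableSet.iInter (fun i => MeasurableSet.iInter (fun j => ?_))
    apply measurableSet_le measurable_const
    fun_prop
  have hdom := pi_domination ((unif 0).prod (unif 2)) (ν₁.prod lebA)
    (Φ := fun p : Pl × Pl => (ht 1 p.1 p.2, ht 2 p.1 p.2))
    ((measurable_ht 1).prodMk (measurable_ht 2)) (measurable_wF hF)
    (fun g hg => change_bound hF g hg) n (Cm.indicator (fun _ => 1))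
    (measurable_const.indicator hCmm)
  have e1 : ∀ w : Fin n → Pl × Pl, {w | SameOrder w}.indicator (fun w => ∏ i, wF F (w i)) w
      = Cm.indicator (fun _ => 1) (fun i => (ht 1 (w i).1 (w i).2, ht 2 (w i).1 (w i).2))
        * ∏ i, wF F (w i) := by
    intro w
    by_cases hw : SameOrder w
    · have h1 : (fun i => (ht 1 (w i).1 (w i).2, ht 2 (w i).1 (w i).2)) ∈ Cm := hw
      rw [Set.indicator_of_mem (show w ∈ {w | SameOrder w} from hw), Set.indicator_of_mem h1,
        one_mul]
    · have h1 : (fun i => (ht 1 (w i).1 (w i).2, ht 2 (w i).1 (w i).2)) ∉ Cm := hw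
      rw [Set.indicator_of_notMem (show w ∉ {w | SameOrder w} from hw),
        Set.indicator_of_notMem h1, zero_mul]
  simp only [e1]
  calc (n.factorial : ℝ≥0∞) * ∫⁻ w : Fin n → Pl × Pl,
        Cm.indicator (fun _ => 1) (fun i => (ht 1 (w i).1 (w i).2, ht 2 (w i).1 (w i).2))
        * ∏ i, wF F (w i) ∂(Measure.pi (fun _ : Fin n => (unif 0).prod (unif 2)))
      ≤ (n.factorial : ℝ≥0∞) * ∫⁻ y, Cm.indicator (fun _ => 1) y
          ∂(Measure.pi (fun _ : Fin n => ν₁.prod lebA)) := by gcongr
    _ = (n.factorial : ℝ≥0∞) * (Measure.pi (fun _ : Fin n => ν₁.prod lebA)) Cm := by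
        rw [lintegral_indicator hCmm]
        simp
    _ ≤ (ν₁ Set.univ * lebA Set.univ) ^ n := comon_card ν₁ lebA
    _ = (∫⁻ y, qF F y ∂lebA) ^ n := by
        rw [measure_univ (μ := lebA), mul_one, hν₁, withDensity_apply _ MeasurableSet.univ,
          Measure.restrict_univ]

end Pool.Agent.H96.OT
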