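import Pool.Agent.H96.OT.Match
import Pool.Agent.H96.OT.DV

set_option autoImplicit false

open MeasureTheory ProbabilityTheory Filter InformationTheory
open scoped ENNReal Topology BoundedContinuousFunction

namespace Pool.Agent.H96.OT

/-! ### Cluster points -/

theorem cluster_le {π : ℕ → ProbabilityMeasure (Pl × Pl)} {ρ : ProbabilityMeasure (Pl × Pl)}
    (hρ : MapClusterPt ρ atTop π) (G : Pl × Pl →ᵇ ℝ) {B : ℝ}
    (h : ∀ᶠ n in atTop, ∫ p, G p ∂(π n : Measure (Pl × Pl)) ≤ B) :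
    ∫ p, G p ∂(ρ : Measure (Pl × Pl)) ≤ B := by
  by_contra hcon
  push Not at hcon
  have hcont : Tendsto (fun m : ProbabilityMeasure (Pl × Pl) => ∫ p, G p ∂(m : Measure (Pl × Pl)))
      (𝓝 ρ) (𝓝 (∫ p, G p ∂(ρ : Measure (Pl × Pl)))) :=
    (ProbabilityMeasure.tendsto_iff_forall_integral_tendsto.mp tendsto_id) G
  have hev : ∀ᶠ m : ProbabilityMeasure (Pl × Pl) in 𝓝 ρ,
      B < ∫ p, G p ∂(m : Measure (Pl × Pl)) := hcont.eventually_const_lt hcon
  have hfreq := hρ.frequently hev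
  obtain ⟨n, hn1, hn2⟩ := (hfreq.and_eventually h).exists
  linarith

/-! ### Clamping -/

/-- clamping to `[1,3]` -/
noncomputable def cl (t : ℝ) : ℝ := max 1 (min t 3)

theorem cl_pos (t : ℝ) : 1 ≤ cl t := le_max_left _ _

theorem cl_le (t : ℝ) : cl t ≤ 3 := max_le (by norm_num) (min_le_right _ _)

theorem cl_eq {t : ℝ} (h1 : 1 ≤ t) (h3 : t ≤ 3) : cl t = t := by
  rw [cl, min_eq_left h3, max_eq_right h1]

theorem continuous_cl : Continuous cl := by
  unfold cl
  fun_prop

theorem log_cl_nonneg (t : ℝ) : 0 ≤ Real.log (cl t) := Real.log_nonneg (cl_pos t)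

theorem log_cl_le (t : ℝ) : Real.log (cl t) ≤ Real.log 3 :=
  Real.log_le_log (by linarith [cl_pos t]) (cl_le t)

/-- the compact box -/
abbrev K3 : Type := Set.Icc (0 : ℝ) 1 × Set.Icc (2 : ℝ) 3 × Set.Icc (0 : ℝ) 1

/-- projection to the box -/
noncomputable def pr (t : ℝ × ℝ × ℝ) : K3 :=
  (Set.projIcc 0 1 zero_le_one t.1, Set.projIcc 2 3 (by norm_num) t.2.1,
    Set.projIcc 0 1 zero_le_one t.2.2)

theorem continuous_pr : Continuous pr := by
  unfold pr
  apply Continuous.prodMk (continuous_projIcc.comp continuous_fst)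
  exact (continuous_projIcc.comp (continuous_fst.comp continuous_snd)).prodMk
    (continuous_projIcc.comp (continuous_snd.comp continuous_snd))

/-- the three-dimensional box measure -/
noncomputable def box3 : Measure (ℝ × ℝ × ℝ) := lebA.prod (lebC.prod lebA)

instance : IsProbabilityMeasure box3 := by unfold box3; infer_instance

/-- the uniform law on the box -/
noncomputable def nuK : Measure K3 := box3.map pr

instance : IsProbabilityMeasure nuK :=
  Measure.isProbabilityMeasure_map continuous_pr.measurable.aemeasurable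

/-- argument of the test functions -/
noncomputable def arg (p : Pl × Pl) : ℝ × ℝ × ℝ :=
  (p.1.1, p.2.1, p.1.2 + (1 - p.1.1) * ((p.2.2 - p.1.2) / cl (p.2.1 - p.1.1)))

theorem continuous_arg : Continuous arg := by
  unfold arg
  have h : Continuous (fun p : Pl × Pl => cl (p.2.1 - p.1.1)) :=
    continuous_cl.comp (by fun_prop)
  have h2 : Continuous (fun p : Pl × Pl => (p.2.2 - p.1.2) / cl (p.2.1 - p.1.1)) := by
    apply Continuous.div (by fun_prop) h
    intro p
    have := cl_pos (p.2.1 - p.1.1)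
    linarith
  fun_prop

/-- the test functions -/
noncomputable def Gt (F : C(K3, ℝ)) : Pl × Pl →ᵇ ℝ :=
  BoundedContinuousFunction.ofNormedAddCommGroup
    (fun p => F (pr (arg p)) - Real.log (cl (p.2.1 - p.1.1)))
    (by
      apply Continuous.sub (F.continuous.comp (continuous_pr.comp continuous_arg))
      apply Continuous.log (continuous_cl.comp (by fun_prop))
      intro p
      have := cl_pos (p.2.1 - p.1.1)
      simp only [Function.comp]
      linarith)
    (‖F‖ + Real.log 3)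
    (fun p => by
      refine (norm_sub_le _ _).trans (add_le_add (F.norm_coe_le_norm _) ?_)
      rw [Real.norm_eq_abs, abs_of_nonneg (log_cl_nonneg _)]
      exact log_cl_le _)

theorem Gt_apply (F : C(K3, ℝ)) (p : Pl × Pl) :
    Gt F p = F (pr (arg p)) - Real.log (cl (p.2.1 - p.1.1)) := rfl

/-- truncated cost -/
noncomputable def ct : Pl × Pl →ᵇ ℝ :=
  BoundedContinuousFunction.ofNormedAddCommGroup (fun p => min (cost p.1 p.2) 10)
    (by
      apply Continuous.min _ continuous_const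
      unfold cost
      fun_prop)
    10
    (fun p => by
      rw [Real.norm_eq_abs, abs_of_nonneg (le_min (cost_nonneg _ _) (by norm_num))]
      exact min_le_right _ _)

theorem ct_apply (p : Pl × Pl) : ct p = min (cost p.1 p.2) 10 := rfl

/-- truncated horizontal displacement -/
noncomputable def hc : Pl × Pl →ᵇ ℝ :=
  BoundedContinuousFunction.ofNormedAddCommGroup (fun p => cl (p.2.1 - p.1.1))
    (continuous_cl.comp (by fun_prop)) 3
    (fun p => by
      rw [Real.norm_eq_abs, abs_of_nonneg (by linarith [cl_pos (p.2.1 - p.1.1)])]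
      exact cl_le _)

theorem hc_apply (p : Pl × Pl) : hc p = cl (p.2.1 - p.1.1) := rfl

/-- logarithm of the truncated horizontal displacement -/
noncomputable def lc : Pl × Pl →ᵇ ℝ :=
  BoundedContinuousFunction.ofNormedAddCommGroup (fun p => Real.log (cl (p.2.1 - p.1.1)))
    (by
      apply Continuous.log (continuous_cl.comp (by fun_prop))
      intro p
      have := cl_pos (p.2.1 - p.1.1)
      simp only [Function.comp]
      linarith) (Real.log 3)
    (fun p => by
      rw [Real.norm_eq_abs, abs_of_nonneg (log_cl_nonneg _)]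
      exact log_cl_le _)

theorem lc_apply (p : Pl × Pl) : lc p = Real.log (cl (p.2.1 - p.1.1)) := rfl

/-- distance to the box of a coordinate -/
noncomputable def dK (p : Pl × Pl) : ℝ :=
  |p.1.1 - (Set.projIcc (0 : ℝ) 1 zero_le_one p.1.1 : ℝ)|
    + |p.1.2 - (Set.projIcc (0 : ℝ) 1 zero_le_one p.1.2 : ℝ)|
    + |p.2.1 - (Set.projIcc (2 : ℝ) 3 (by norm_num) p.2.1 : ℝ)|
    + |p.2.2 - (Set.projIcc (0 : ℝ) 1 zero_le_one p.2.2 : ℝ)|

/-- membership in the box -/
def InBox (p : Pl × Pl) : Prop :=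
  (p.1.1 ∈ Set.Icc (0 : ℝ) 1 ∧ p.1.2 ∈ Set.Icc (0 : ℝ) 1) ∧
    (p.2.1 ∈ Set.Icc (2 : ℝ) 3 ∧ p.2.2 ∈ Set.Icc (0 : ℝ) 1)

theorem dK_zero {p : Pl × Pl} (h : InBox p) : dK p = 0 := by
  unfold dK
  rw [Set.projIcc_of_mem _ h.1.1, Set.projIcc_of_mem _ h.1.2, Set.projIcc_of_mem _ h.2.1,
    Set.projIcc_of_mem _ h.2.2]
  simp

theorem inBox_of_dK {p : Pl × Pl} (h : dK p ≤ 0) : InBox p := by
  unfold dK at h
  have h1 := abs_nonneg (p.1.1 - (Set.projIcc (0 : ℝ) 1 zero_le_one p.1.1 : ℝ))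
  have h2 := abs_nonneg (p.1.2 - (Set.projIcc (0 : ℝ) 1 zero_le_one p.1.2 : ℝ))
  have h3 := abs_nonneg (p.2.1 - (Set.projIcc (2 : ℝ) 3 (by norm_num) p.2.1 : ℝ))
  have h4 := abs_nonneg (p.2.2 - (Set.projIcc (0 : ℝ) 1 zero_le_one p.2.2 : ℝ))
  have e1 : p.1.1 = (Set.projIcc (0 : ℝ) 1 zero_le_one p.1.1 : ℝ) := by
    rw [← sub_eq_zero, ← abs_eq_zero]; linarith
  have e2 : p.1.2 = (Set.projIcc (0 : ℝ) 1 zero_le_one p.1.2 : ℝ) := by
    rw [← sub_eq_zero, ← abs_eq_zero]; linarith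
  have e3 : p.2.1 = (Set.projIcc (2 : ℝ) 3 (by norm_num) p.2.1 : ℝ) := by
    rw [← sub_eq_zero, ← abs_eq_zero]; linarith
  have e4 : p.2.2 = (Set.projIcc (0 : ℝ) 1 zero_le_one p.2.2 : ℝ) := by
    rw [← sub_eq_zero, ← abs_eq_zero]; linarith
  refine ⟨⟨?_, ?_⟩, ⟨?_, ?_⟩⟩
  · rw [e1]; exact (Set.projIcc (0 : ℝ) 1 zero_le_one p.1.1).2
  · rw [e2]; exact (Set.projIcc (0 : ℝ) 1 zero_le_one p.1.2).2
  · rw [e3]; exact (Set.projIcc (2 : ℝ) 3 (by norm_num) p.2.1).2
  · rw [e4]; exact (Set.projIcc (0 : ℝ) 1 zero_le_one p.2.2).2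

theorem continuous_dK : Continuous dK := by
  unfold dK
  have h1 : ∀ f : Pl × Pl → ℝ, Continuous f →
      Continuous (fun p => |f p - (Set.projIcc (0 : ℝ) 1 zero_le_one (f p) : ℝ)|) := by
    intro f hf
    exact (hf.sub (continuous_subtype_val.comp (continuous_projIcc.comp hf))).abs
  have h2 : ∀ f : Pl × Pl → ℝ, Continuous f →
      Continuous (fun p => |f p - (Set.projIcc (2 : ℝ) 3 (by norm_num) (f p) : ℝ)|) := by
    intro f hf
    exact (hf.sub (continuous_subtype_val.comp (continuous_projIcc.comp hf))).abs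
  exact (((h1 _ (by fun_prop)).add (h1 _ (by fun_prop))).add (h2 _ (by fun_prop))).add
    (h1 _ (by fun_prop))

theorem dK_nonneg (p : Pl × Pl) : 0 ≤ dK p := by
  unfold dK
  positivity

/-- truncated distance to the box -/
noncomputable def dKt : Pl × Pl →ᵇ ℝ :=
  BoundedContinuousFunction.ofNormedAddCommGroup (fun p => min (dK p) 1)
    (continuous_dK.min continuous_const) 1
    (fun p => by
      rw [Real.norm_eq_abs, abs_of_nonneg (le_min (dK_nonneg _) (by norm_num))]
      exact min_le_right _ _)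

theorem dKt_apply (p : Pl × Pl) : dKt p = min (dK p) 1 := rfl

theorem inBox_h {p : Pl × Pl} (h : InBox p) : 1 ≤ p.2.1 - p.1.1 ∧ p.2.1 - p.1.1 ≤ 3 := by
  obtain ⟨⟨h1, _⟩, ⟨h3, _⟩⟩ := h
  constructor
  · linarith [h1.2, h3.1]
  · linarith [h1.1, h3.2]

theorem Gt_eq_gF (F : C(K3, ℝ)) {p : Pl × Pl} (h : InBox p) :
    Gt F p = gF (fun t => F (pr t)) p := by
  have hh := inBox_h h
  rw [Gt_apply, gF, cl_eq hh.1 hh.2]
  have : arg p = (p.1.1, p.2.1, ht 1 p.1 p.2) := by
    unfold arg ht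
    rw [cl_eq hh.1 hh.2]
  rw [this]

end Pool.Agent.H96.OT
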