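import Pool.Agent.H96.OT.Prob
import Pool.Agent.H96.OT.Birk

set_option autoImplicit false

open MeasureTheory ProbabilityTheory Filter
open scoped ENNReal Topology

namespace Pool.Agent.H96.OT

/-! ### Sorted matching -/

theorem close_one {n m : ℕ} (hm : 0 < m) (U V : Fin n → ℝ) (hU : Monotone U) (hV : Monotone V)
    (hU0 : ∀ i, U i ∈ Set.Icc (0 : ℝ) 1) (hV0 : ∀ i, V i ∈ Set.Icc (0 : ℝ) 1)
    (hcU : ∀ j : ℕ, j ≤ m → ((Finset.univ.filter (fun i => U i ≤ (j : ℝ) / m)).card : ℝ)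
      ≤ n * ((j : ℝ) / m) + n / m)
    (hcV : ∀ j : ℕ, j ≤ m → (n : ℝ) * ((j : ℝ) / m) - n / m
      ≤ ((Finset.univ.filter (fun i => V i ≤ (j : ℝ) / m)).card : ℝ)) (k : Fin n) :
    V k ≤ U k + 3 / m := by
  by_contra hcon
  push Not at hcon
  have hm' : (0 : ℝ) < m := by exact_mod_cast hm
  set j : ℕ := ⌈(m : ℝ) * U k⌉₊ with hj
  have hj1 : U k ≤ (j : ℝ) / m := by
    rw [le_div_iff₀ hm', mul_comm]
    exact Nat.le_ceil _
  have hj2 : (j : ℝ) < m * U k + 1 := Nat.ceil_lt_add_one (mul_nonneg hm'.le (hU0 k).1)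
  have hj3 : ((j : ℝ) + 2) / m < V k := by
    refine lt_of_lt_of_le ?_ hcon.le
    rw [div_lt_iff₀ hm', add_mul, div_mul_cancel₀ _ hm'.ne']
    linarith
  have hj4 : j + 2 < m := by
    have h1 : ((j : ℝ) + 2) / m < 1 := lt_of_lt_of_le hj3 (hV0 k).2
    rw [div_lt_one hm'] at h1
    exact_mod_cast h1
  have hcount1 : ((k : ℕ) + 1 : ℝ)
      ≤ ((Finset.univ.filter (fun i => U i ≤ (j : ℝ) / m)).card : ℝ) := by
    have h1 : (Finset.Iic k) ⊆ Finset.univ.filter (fun i => U i ≤ (j : ℝ) / m) := by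
      intro i hi
      rw [Finset.mem_Iic] at hi
      rw [Finset.mem_filter]
      exact ⟨Finset.mem_univ _, (hU hi).trans hj1⟩
    have h2 := Finset.card_le_card h1
    rw [Fin.card_Iic] at h2
    exact_mod_cast h2
  have hcount2 : ((Finset.univ.filter (fun i => V i ≤ ((j + 2 : ℕ) : ℝ) / m)).card : ℝ)
      ≤ ((k : ℕ) : ℝ) := by
    have h1 : Finset.univ.filter (fun i => V i ≤ ((j + 2 : ℕ) : ℝ) / m) ⊆ Finset.Iio k := by
      intro i hi
      rw [Finset.mem_filter] at hi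
      rw [Finset.mem_Iio]
      by_contra hc
      push Not at hc
      have h2 := hV hc
      have h3 := hi.2
      push_cast at h3
      linarith
    have h2 := Finset.card_le_card h1
    rw [Fin.card_Iio] at h2
    exact_mod_cast h2
  have h1 := hcU j (by omega)
  have h2 := hcV (j + 2) (by omega)
  have h3 : (n : ℝ) * (((j + 2 : ℕ) : ℝ) / m) - n / m = n * ((j : ℝ) / m) + n / m := by
    push_cast
    field_simp
    ring
  linarith

theorem exists_close_perm {n m : ℕ} (hm : 0 < m) (u v : Fin n → ℝ)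
    (hu0 : ∀ i, u i ∈ Set.Icc (0 : ℝ) 1) (hv0 : ∀ i, v i ∈ Set.Icc (0 : ℝ) 1)
    (hcu : ∀ j : ℕ, j ≤ m → |((Finset.univ.filter (fun i => u i ≤ (j : ℝ) / m)).card : ℝ)
      - n * ((j : ℝ) / m)| ≤ n / m)
    (hcv : ∀ j : ℕ, j ≤ m → |((Finset.univ.filter (fun i => v i ≤ (j : ℝ) / m)).card : ℝ)
      - n * ((j : ℝ) / m)| ≤ n / m) :
    ∃ τ : Equiv.Perm (Fin n), ∀ i, |u i - v (τ i)| ≤ 3 / m := by
  have hcomp : ∀ (w : Fin n → ℝ) (α : Equiv.Perm (Fin n)) (t : ℝ),
      (Finset.univ.filter (fun i => (w ∘ α) i ≤ t)).card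
        = (Finset.univ.filter (fun i => w i ≤ t)).card := by
    intro w α t
    apply Finset.card_bij (fun i _ => α i)
    · intro i hi
      rw [Finset.mem_filter] at hi ⊢
      exact ⟨Finset.mem_univ _, hi.2⟩
    · intro a _ b _ hab
      exact α.injective hab
    · intro i hi
      refine ⟨α.symm i, ?_, by simp⟩
      rw [Finset.mem_filter] at hi ⊢
      exact ⟨Finset.mem_univ _, by simpa using hi.2⟩
  set α := Tuple.sort u with hα
  set β := Tuple.sort v with hβ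
  have hαm : Monotone (u ∘ α) := Tuple.monotone_sort u
  have hβm : Monotone (v ∘ β) := Tuple.monotone_sort v
  refine ⟨α.symm.trans β, fun i => ?_⟩
  obtain ⟨k, rfl⟩ := α.surjective i
  have e : (α.symm.trans β) (α k) = β k := by simp
  rw [e]
  have h1 := close_one hm (u ∘ α) (v ∘ β) hαm hβm (fun i => hu0 _) (fun i => hv0 _)
    (fun j hj => by rw [hcomp]; have := (abs_le.mp (hcu j hj)).2; linarith)
    (fun j hj => by rw [hcomp]; have := (abs_le.mp (hcv j hj)).1; linarith) k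
  have h2 := close_one hm (v ∘ β) (u ∘ α) hβm hαm (fun i => hv0 _) (fun i => hu0 _)
    (fun j hj => by rw [hcomp]; have := (abs_le.mp (hcv j hj)).2; linarith)
    (fun j hj => by rw [hcomp]; have := (abs_le.mp (hcu j hj)).1; linarith) k
  simp only [Function.comp] at h1 h2
  rw [abs_le]
  constructor <;> linarith

/-! ### Laws of large numbers -/

variable {Ω : Type} [MeasurableSpace Ω] {P : Measure Ω} [IsProbabilityMeasure P]
  {X Y : ℕ → Ω → Pl}

omit [IsProbabilityMeasure P] in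
theorem slln_aux {μ : Measure Pl} {Z : ℕ → Ω → Pl} (hZ : ∀ i, Measurable (Z i))
    (hlaw : ∀ i, P.map (Z i) = μ) (hind : iIndepFun Z P) {f : Pl → ℝ} (hf : Measurable f)
    (hint : Integrable f μ) :
    ∀ᵐ ω ∂P, Tendsto (fun n : ℕ => (∑ i ∈ Finset.range n, f (Z i ω)) / n) atTop
      (𝓝 (∫ x, f x ∂μ)) := by
  have h1 := strong_law_ae_real (μ := P) (fun i ω => f (Z i ω)) ?_ ?_ ?_
  · have h2 : ∫ ω, f (Z 0 ω) ∂P = ∫ x, f x ∂μ := by
      rw [← hlaw 0, integral_map (hZ 0).aemeasurable hf.aestronglyMeasurable]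
    rw [h2] at h1
    exact h1
  · rw [← hlaw 0] at hint
    exact (integrable_map_measure hf.aestronglyMeasurable (hZ 0).aemeasurable).mp hint
  · intro i j hij
    exact (hind.indepFun hij).comp hf hf
  · intro i
    have : IdentDistrib (Z i) (Z 0) P P :=
      ⟨(hZ i).aemeasurable, (hZ 0).aemeasurable, by rw [hlaw i, hlaw 0]⟩
    exact this.comp hf

theorem IsSample.slln_X (h : IsSample P X Y) {f : Pl → ℝ} (hf : Measurable f)
    (hint : Integrable f (unif 0)) :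
    ∀ᵐ ω ∂P, Tendsto (fun n : ℕ => (∑ i ∈ Finset.range n, f (X i ω)) / n) atTop
      (𝓝 (∫ x, f x ∂(unif 0))) :=
  slln_aux h.measX h.lawX (h.indep.precomp (g := Sum.inl) Sum.inl_injective) hf hint

theorem IsSample.slln_Y (h : IsSample P X Y) {f : Pl → ℝ} (hf : Measurable f)
    (hint : Integrable f (unif 2)) :
    ∀ᵐ ω ∂P, Tendsto (fun n : ℕ => (∑ i ∈ Finset.range n, f (Y i ω)) / n) atTop
      (𝓝 (∫ x, f x ∂(unif 2))) :=
  slln_aux h.measY h.lawY (h.indep.precomp (g := Sum.inr) Sum.inr_injective) hf hint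

/-! ### Integrals for the uniform laws -/

theorem ae_unif_zero : ∀ᵐ x ∂(unif 0), x.1 ∈ Set.Icc (0 : ℝ) 1 ∧ x.2 ∈ Set.Icc (0 : ℝ) 1 := by
  have h : ∀ᵐ x ∂(unif 0), x ∈ Set.Icc (0 : ℝ) (0 + 1) ×ˢ Set.Icc (0 : ℝ) 1 :=
    ae_restrict_mem (measurableSet_Icc.prod measurableSet_Icc)
  filter_upwards [h] with x hx
  rw [zero_add] at hx
  exact hx

theorem ae_unif_two : ∀ᵐ x ∂(unif 2), x.1 ∈ Set.Icc (2 : ℝ) 3 ∧ x.2 ∈ Set.Icc (0 : ℝ) 1 := by
  have h : ∀ᵐ x ∂(unif 2), x ∈ Set.Icc (2 : ℝ) (2 + 1) ×ˢ Set.Icc (0 : ℝ) 1 :=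
    ae_restrict_mem (measurableSet_Icc.prod measurableSet_Icc)
  filter_upwards [h] with x hx
  have e : (2 : ℝ) + 1 = 3 := by norm_num
  rw [e] at hx
  exact hx

theorem integral_lebA_id : ∫ x, x ∂lebA = 1 / 2 := by
  rw [lebA, integral_Icc_eq_integral_Ioc, ← intervalIntegral.integral_of_le (by norm_num)]
  simp

theorem integral_lebC_id : ∫ x, x ∂lebC = 5 / 2 := by
  rw [lebC, integral_Icc_eq_integral_Ioc, ← intervalIntegral.integral_of_le (by norm_num)]
  simp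
  norm_num

theorem integral_fst_zero : ∫ x : Pl, x.1 ∂(unif 0) = 1 / 2 := by
  rw [unif_zero, integral_fun_fst (f := fun t : ℝ => t)]
  simp [integral_lebA_id]

theorem integral_fst_two : ∫ x : Pl, x.1 ∂(unif 2) = 5 / 2 := by
  rw [unif_two, integral_fun_fst (f := fun t : ℝ => t)]
  simp [integral_lebC_id]

theorem lebA_Iic {t : ℝ} (h0 : 0 ≤ t) (h1 : t ≤ 1) : lebA.real (Set.Iic t) = t := by
  rw [lebA, Measure.real, Measure.restrict_apply measurableSet_Iic]
  have : Set.Iic t ∩ Set.Icc (0 : ℝ) 1 = Set.Icc 0 t := by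
    ext x
    simp only [Set.mem_inter_iff, Set.mem_Iic, Set.mem_Icc]
    constructor
    · rintro ⟨h2, h3, h4⟩; exact ⟨h3, h2⟩
    · rintro ⟨h2, h3⟩; exact ⟨h3, h2, h3.trans h1⟩
  rw [this, Real.volume_Icc, ENNReal.toReal_ofReal (by linarith)]
  ring

theorem integral_ind_zero {t : ℝ} (h0 : 0 ≤ t) (h1 : t ≤ 1) :
    ∫ x : Pl, (Set.Iic t).indicator (fun _ => (1 : ℝ)) x.2 ∂(unif 0) = t := by
  rw [unif_zero, integral_fun_snd (f := (Set.Iic t).indicator (fun _ => (1 : ℝ)))]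
  rw [integral_indicator measurableSet_Iic, setIntegral_const]
  simp [lebA_Iic h0 h1]

theorem integral_ind_two {t : ℝ} (h0 : 0 ≤ t) (h1 : t ≤ 1) :
    ∫ x : Pl, (Set.Iic t).indicator (fun _ => (1 : ℝ)) x.2 ∂(unif 2) = t := by
  rw [unif_two, integral_fun_snd (f := (Set.Iic t).indicator (fun _ => (1 : ℝ)))]
  rw [integral_indicator measurableSet_Iic, setIntegral_const]
  simp [lebA_Iic h0 h1]

theorem count_eventually {a : ℕ → ℝ} {t : ℝ} {m : ℕ} (hm : 0 < m)
    (h : Tendsto (fun n : ℕ => (∑ i ∈ Finset.range n,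
      (Set.Iic t).indicator (fun _ => (1 : ℝ)) (a i)) / n) atTop (𝓝 t)) :
    ∀ᶠ n : ℕ in atTop, |((Finset.univ.filter (fun i : Fin n => a i ≤ t)).card : ℝ) - n * t|
      ≤ n / m := by
  have hm' : (0 : ℝ) < 1 / m := by positivity
  have h1 := (Metric.tendsto_atTop.mp h) (1 / m) hm'
  obtain ⟨N, hN⟩ := h1
  filter_upwards [eventually_ge_atTop (max N 1)] with n hn
  have h2 := hN n ((le_max_left _ _).trans hn)
  have hn1 : (0 : ℝ) < n := by exact_mod_cast (le_max_right N 1).trans hn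
  have h3 : ∑ i ∈ Finset.range n, (Set.Iic t).indicator (fun _ => (1 : ℝ)) (a i)
      = ((Finset.univ.filter (fun i : Fin n => a i ≤ t)).card : ℝ) := by
    rw [Finset.sum_range, Finset.card_filter]
    push_cast
    apply Finset.sum_congr rfl
    intro i _
    simp [Set.indicator_apply]
  rw [h3, Real.dist_eq] at h2
  have h4 : |((Finset.univ.filter (fun i : Fin n => a i ≤ t)).card : ℝ) - n * t|
      = n * |((Finset.univ.filter (fun i : Fin n => a i ≤ t)).card : ℝ) / n - t| := by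
    rw [← abs_of_pos hn1, ← abs_mul, abs_of_pos hn1]
    congr 1
    field_simp
  rw [h4]
  have h5 := mul_le_mul_of_nonneg_left h2.le hn1.le
  calc (n : ℝ) * |((Finset.univ.filter (fun i : Fin n => a i ≤ t)).card : ℝ) / n - t|
      ≤ n * (1 / m) := h5
    _ = n / m := by ring

theorem integrable_ind (μ : Measure Pl) [IsFiniteMeasure μ] (t : ℝ) :
    Integrable (fun x : Pl => (Set.Iic t).indicator (fun _ => (1 : ℝ)) x.2) μ := by
  apply Integrable.of_bound (C := 1)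
  · exact ((measurable_const.indicator measurableSet_Iic).comp
      measurable_snd).aestronglyMeasurable
  · refine ae_of_all _ (fun x => ?_)
    by_cases hx : x.2 ∈ Set.Iic t
    · rw [Set.indicator_of_mem hx]; simp
    · rw [Set.indicator_of_notMem hx]; simp

theorem measurable_ind (t : ℝ) :
    Measurable (fun x : Pl => (Set.Iic t).indicator (fun _ => (1 : ℝ)) x.2) :=
  (measurable_const.indicator measurableSet_Iic).comp measurable_snd

theorem IsSample.count_X (h : IsSample P X Y) {m : ℕ} (hm : 0 < m) {t : ℝ} (h0 : 0 ≤ t)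
    (h1 : t ≤ 1) : ∀ᵐ ω ∂P, ∀ᶠ n : ℕ in atTop,
      |((Finset.univ.filter (fun i : Fin n => (X i ω).2 ≤ t)).card : ℝ) - n * t| ≤ n / m := by
  filter_upwards [h.slln_X (measurable_ind t) (integrable_ind _ t)] with ω hω
  rw [integral_ind_zero h0 h1] at hω
  exact count_eventually (a := fun i => (X i ω).2) hm hω

theorem IsSample.count_Y (h : IsSample P X Y) {m : ℕ} (hm : 0 < m) {t : ℝ} (h0 : 0 ≤ t)
    (h1 : t ≤ 1) : ∀ᵐ ω ∂P, ∀ᶠ n : ℕ in atTop,
      |((Finset.univ.filter (fun i : Fin n => (Y i ω).2 ≤ t)).card : ℝ) - n * t| ≤ n / m := by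
  filter_upwards [h.slln_Y (measurable_ind t) (integrable_ind _ t)] with ω hω
  rw [integral_ind_two h0 h1] at hω
  exact count_eventually (a := fun i => (Y i ω).2) hm hω

omit [IsProbabilityMeasure P] in
theorem IsSample.ae_X (h : IsSample P X Y) : ∀ᵐ ω ∂P, ∀ i,
    (X i ω).1 ∈ Set.Icc (0 : ℝ) 1 ∧ (X i ω).2 ∈ Set.Icc (0 : ℝ) 1 := by
  rw [ae_all_iff]
  intro i
  have h1 := ae_unif_zero
  rw [← h.lawX i] at h1
  exact ae_of_ae_map (h.measX i).aemeasurable h1

omit [IsProbabilityMeasure P] in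
theorem IsSample.ae_Y (h : IsSample P X Y) : ∀ᵐ ω ∂P, ∀ i,
    (Y i ω).1 ∈ Set.Icc (2 : ℝ) 3 ∧ (Y i ω).2 ∈ Set.Icc (0 : ℝ) 1 := by
  rw [ae_all_iff]
  intro i
  have h1 := ae_unif_two
  rw [← h.lawY i] at h1
  exact ae_of_ae_map (h.measY i).aemeasurable h1

theorem frac_mem {m j : ℕ} (hm : 0 < m) (hj : j ≤ m) :
    (0 : ℝ) ≤ (j : ℝ) / m ∧ (j : ℝ) / m ≤ 1 := by
  have hm' : (0 : ℝ) < m := by exact_mod_cast hm
  refine ⟨by positivity, ?_⟩
  rw [div_le_one hm']
  exact_mod_cast hj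

/-- almost surely, for every `m ≥ 1` and all large `n`, some permutation matches the heights up
to `3/m` -/
theorem IsSample.close_perm (h : IsSample P X Y) : ∀ᵐ ω ∂P, ∀ m : ℕ, 0 < m →
    ∀ᶠ n : ℕ in atTop, ∃ τ : Equiv.Perm (Fin n), ∀ i : Fin n,
      |(X i ω).2 - (Y (τ i) ω).2| ≤ 3 / m := by
  have hcX : ∀ᵐ ω ∂P, ∀ m j : ℕ, 0 < m → j ≤ m → ∀ᶠ n : ℕ in atTop,
      |((Finset.univ.filter (fun i : Fin n => (X i ω).2 ≤ (j : ℝ) / m)).card : ℝ)
        - n * ((j : ℝ) / m)| ≤ n / m := by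
    rw [ae_all_iff]
    intro m
    rw [ae_all_iff]
    intro j
    by_cases hm : 0 < m
    · by_cases hj : j ≤ m
      · filter_upwards [h.count_X hm (frac_mem hm hj).1 (frac_mem hm hj).2] with ω hω _ _
        exact hω
      · exact ae_of_all _ (fun _ _ h2 => absurd h2 hj)
    · exact ae_of_all _ (fun _ h1 _ => absurd h1 hm)
  have hcY : ∀ᵐ ω ∂P, ∀ m j : ℕ, 0 < m → j ≤ m → ∀ᶠ n : ℕ in atTop,
      |((Finset.univ.filter (fun i : Fin n => (Y i ω).2 ≤ (j : ℝ) / m)).card : ℝ)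
        - n * ((j : ℝ) / m)| ≤ n / m := by
    rw [ae_all_iff]
    intro m
    rw [ae_all_iff]
    intro j
    by_cases hm : 0 < m
    · by_cases hj : j ≤ m
      · filter_upwards [h.count_Y hm (frac_mem hm hj).1 (frac_mem hm hj).2] with ω hω _ _
        exact hω
      · exact ae_of_all _ (fun _ _ h2 => absurd h2 hj)
    · exact ae_of_all _ (fun _ h1 _ => absurd h1 hm)
  filter_upwards [h.ae_X, h.ae_Y, hcX, hcY] with ω hXω hYω hcXω hcYω
  intro m hm
  have h1 : ∀ᶠ n : ℕ in atTop, ∀ j ∈ Finset.range (m + 1),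
      |((Finset.univ.filter (fun i : Fin n => (X i ω).2 ≤ (j : ℝ) / m)).card : ℝ)
        - n * ((j : ℝ) / m)| ≤ n / m := by
    rw [Filter.eventually_all_finset]
    intro j hj
    exact hcXω m j hm (by rw [Finset.mem_range] at hj; omega)
  have h2 : ∀ᶠ n : ℕ in atTop, ∀ j ∈ Finset.range (m + 1),
      |((Finset.univ.filter (fun i : Fin n => (Y i ω).2 ≤ (j : ℝ) / m)).card : ℝ)
        - n * ((j : ℝ) / m)| ≤ n / m := by
    rw [Filter.eventually_all_finset]
    intro j hj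
    exact hcYω m j hm (by rw [Finset.mem_range] at hj; omega)
  filter_upwards [h1, h2] with n hn1 hn2
  exact exists_close_perm hm (fun i : Fin n => (X i ω).2) (fun i : Fin n => (Y i ω).2)
    (fun i => (hXω i).2) (fun i => (hYω i).2)
    (fun j hj => hn1 j (by rw [Finset.mem_range]; omega))
    (fun j hj => hn2 j (by rw [Finset.mem_range]; omega))

end Pool.Agent.H96.OT
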