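import Pool.Agent.H96.OT.First

set_option autoImplicit false

open MeasureTheory ProbabilityTheory Filter
open scoped ENNReal Topology

namespace Pool.Agent.H96.OT

variable {Ω : Type} [MeasurableSpace Ω] {P : Measure Ω} [IsProbabilityMeasure P]
  {X Y : ℕ → Ω → Pl}

/-- the matched pairs -/
def pairs (X Y : ℕ → Ω → Pl) {n : ℕ} (σ : Equiv.Perm (Fin n)) (ω : Ω) : Fin n → Pl × Pl :=
  fun i => (X i ω, Y (σ i) ω)

omit [IsProbabilityMeasure P] in
theorem IsSample.measurable_pairs (h : IsSample P X Y) {n : ℕ} (σ : Equiv.Perm (Fin n)) :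
    Measurable (pairs X Y σ) := by
  unfold pairs
  exact measurable_pi_lambda _ (fun i => (h.measX i).prodMk (h.measY (σ i)))

theorem IsSample.law_pairs (h : IsSample P X Y) {n : ℕ} (σ : Equiv.Perm (Fin n)) :
    P.map (pairs X Y σ) = Measure.pi (fun _ : Fin n => (unif 0).prod (unif 2)) := by
  set e : Fin n ⊕ Fin n → ℕ ⊕ ℕ := Sum.map (fun i => (i : ℕ)) (fun i => ((σ i : Fin n) : ℕ))
    with he
  have heinj : Function.Injective e := by
    apply Sum.map_injective.mpr
    exact ⟨Fin.val_injective, fun a b hab => σ.injective (Fin.val_injective hab)⟩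
  have hind := h.indep.precomp heinj
  have hmeas : ∀ k : Fin n ⊕ Fin n, Measurable (Sum.elim X Y (e k)) := by
    rintro (i | i)
    · exact h.measX _
    · exact h.measY _
  have h1 : P.map (fun ω (k : Fin n ⊕ Fin n) => Sum.elim X Y (e k) ω)
      = Measure.pi (fun k => P.map (Sum.elim X Y (e k))) :=
    (iIndepFun_iff_map_fun_eq_pi_map (fun k => (hmeas k).aemeasurable)).mp hind
  have hlaw : ∀ k : Fin n ⊕ Fin n, P.map (Sum.elim X Y (e k))
      = Sum.elim (fun _ : Fin n => unif 0) (fun _ : Fin n => unif 2) k := by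
    rintro (i | i)
    · exact h.lawX _
    · exact h.lawY _
  simp only [hlaw] at h1
  have hsf : ∀ k : Fin n ⊕ Fin n, SigmaFinite
      (Sum.elim (fun _ : Fin n => unif 0) (fun _ : Fin n => unif 2) k) := by
    rintro (i | i)
    · change SigmaFinite (unif 0); infer_instance
    · change SigmaFinite (unif 2); infer_instance
  have hmp1 := measurePreserving_sumPiEquivProdPi
    (fun k : Fin n ⊕ Fin n => Sum.elim (fun _ : Fin n => unif 0) (fun _ : Fin n => unif 2) k)
  have hmp2 := (measurePreserving_arrowProdEquivProdArrow Pl Pl (Fin n)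
    (fun _ => unif 0) (fun _ => unif 2)).symm
  have h2 := hmp1.map_eq
  have h3 := hmp2.map_eq
  have hm0 : Measurable (fun ω (k : Fin n ⊕ Fin n) => Sum.elim X Y (e k) ω) :=
    measurable_pi_lambda _ hmeas
  rw [← h1, Measure.map_map hmp1.measurable hm0] at h2
  rw [← h3]
  change _ = Measure.map _ ((Measure.pi fun i : Fin n =>
    Sum.elim (fun _ : Fin n => unif 0) (fun _ : Fin n => unif 2) (Sum.inl i)).prod
    (Measure.pi fun i : Fin n =>
    Sum.elim (fun _ : Fin n => unif 0) (fun _ : Fin n => unif 2) (Sum.inr i)))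
  rw [← h2, Measure.map_map hmp2.measurable (hmp1.measurable.comp hm0)]
  rfl

theorem measurableSet_sameOrder (n : ℕ) : MeasurableSet {w : Fin n → Pl × Pl | SameOrder w} := by
  have : {w : Fin n → Pl × Pl | SameOrder w} = ⋂ i, ⋂ j, {w : Fin n → Pl × Pl |
      0 ≤ (ht 1 (w i).1 (w i).2 - ht 1 (w j).1 (w j).2)
        * (ht 2 (w i).1 (w i).2 - ht 2 (w j).1 (w j).2)} := by
    ext p
    simp [SameOrder]
  rw [this]
  refine MeasurableSet.iInter (fun i => MeasurableSet.iInter (fun j => ?_))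
  apply measurableSet_le measurable_const
  have hm : ∀ (t : ℝ) (i : Fin n),
      Measurable (fun w : Fin n → Pl × Pl => ht t (w i).1 (w i).2) :=
    fun t i => (measurable_ht t).comp (measurable_pi_apply i)
  exact ((hm 1 i).sub (hm 1 j)).mul ((hm 2 i).sub (hm 2 j))

/-- the exponent -/
noncomputable def gF (F : ℝ × ℝ × ℝ → ℝ) (p : Pl × Pl) : ℝ :=
  F (p.1.1, p.2.1, ht 1 p.1 p.2) - Real.log (p.2.1 - p.1.1)

theorem wF_eq (F : ℝ × ℝ × ℝ → ℝ) {p : Pl × Pl} (hp : 0 < p.2.1 - p.1.1) :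
    wF F p = ENNReal.ofReal (Real.exp (gF F p)) := by
  unfold wF gF
  rw [Real.exp_sub, Real.exp_log hp, div_eq_mul_inv]

theorem first_moment_sample (h : IsSample P X Y) {F : ℝ × ℝ × ℝ → ℝ} (hF : Measurable F)
    (hfin : ∫⁻ y, qF F y ∂lebA ≠ ⊤) (n : ℕ) :
    ∫⁻ ω, ∑ σ : Equiv.Perm (Fin n), {w | SameOrder w}.indicator (fun w => ∏ i, wF F (w i))
      (pairs X Y σ ω) ∂P ≤ (∫⁻ y, qF F y ∂lebA) ^ n := by
  classical
  have hm : Measurable (fun w : Fin n → Pl × Pl =>
      {w | SameOrder w}.indicator (fun w => ∏ i, wF F (w i)) w) := by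
    apply Measurable.indicator _ (measurableSet_sameOrder n)
    exact Finset.measurable_prod _ (fun i _ => (measurable_wF hF).comp (measurable_pi_apply i))
  have hm' : ∀ σ ∈ (Finset.univ : Finset (Equiv.Perm (Fin n))), Measurable (fun ω =>
      {w | SameOrder w}.indicator (fun w => ∏ i, wF F (w i)) (pairs X Y σ ω)) :=
    fun σ _ => hm.comp (h.measurable_pairs σ)
  rw [lintegral_finsetSum _ hm']
  have e : ∀ σ : Equiv.Perm (Fin n), ∫⁻ ω, {w | SameOrder w}.indicator
      (fun w => ∏ i, wF F (w i)) (pairs X Y σ ω) ∂P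
      = ∫⁻ w : Fin n → Pl × Pl, {w | SameOrder w}.indicator (fun w => ∏ i, wF F (w i)) w
        ∂(Measure.pi (fun _ : Fin n => (unif 0).prod (unif 2))) := by
    intro σ
    rw [← h.law_pairs σ, lintegral_map hm (h.measurable_pairs σ)]
  simp only [e]
  rw [Finset.sum_const, nsmul_eq_mul, Finset.card_univ, Fintype.card_perm, Fintype.card_fin]
  exact first_moment hF hfin n

/-- the exceptional event at time `n` -/
def badEvent (X Y : ℕ → Ω → Pl) (F : ℝ × ℝ × ℝ → ℝ) (c : ℝ) (n : ℕ) : Set Ω :=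
  {ω | ∃ σ : Equiv.Perm (Fin n), SameOrder (pairs X Y σ ω) ∧
    (∀ i, 0 < (Y (σ i) ω).1 - (X i ω).1) ∧ n * c ≤ ∑ i : Fin n, gF F (pairs X Y σ ω i)}

theorem badEvent_le (h : IsSample P X Y) {F : ℝ × ℝ × ℝ → ℝ} (hF : Measurable F) {ℓ : ℝ}
    (hℓ : ∫⁻ y, qF F y ∂lebA = ENNReal.ofReal (Real.exp ℓ)) (ε : ℝ) (n : ℕ) :
    P (badEvent X Y F (ℓ + ε) n) ≤ ENNReal.ofReal (Real.exp (-ε)) ^ n := by
  classical
  set S : Ω → ℝ≥0∞ := fun ω => ∑ σ : Equiv.Perm (Fin n), {w | SameOrder w}.indicator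
    (fun w => ∏ i, wF F (w i)) (pairs X Y σ ω) with hS
  have hSm : Measurable S := by
    apply Finset.measurable_sum
    intro σ _
    have hm : Measurable (fun w : Fin n → Pl × Pl =>
        {w | SameOrder w}.indicator (fun w => ∏ i, wF F (w i)) w) := by
      apply Measurable.indicator _ (measurableSet_sameOrder n)
      exact Finset.measurable_prod _ (fun i _ => (measurable_wF hF).comp (measurable_pi_apply i))
    exact hm.comp (h.measurable_pairs σ)
  have hsub : badEvent X Y F (ℓ + ε) n ⊆ {ω | ENNReal.ofReal (Real.exp (n * (ℓ + ε))) ≤ S ω} := by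
    rintro ω ⟨σ, hσ, hpos, hle⟩
    have h1 : {w | SameOrder w}.indicator (fun w => ∏ i, wF F (w i)) (pairs X Y σ ω)
        = ENNReal.ofReal (Real.exp (∑ i : Fin n, gF F (pairs X Y σ ω i))) := by
      rw [Set.indicator_of_mem (show pairs X Y σ ω ∈ {w | SameOrder w} from hσ)]
      rw [Real.exp_sum, ENNReal.ofReal_prod_of_nonneg (fun _ _ => (Real.exp_pos _).le)]
      apply Finset.prod_congr rfl
      intro i _
      exact wF_eq F (hpos i)
    change ENNReal.ofReal (Real.exp (n * (ℓ + ε))) ≤ S ω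
    calc ENNReal.ofReal (Real.exp (n * (ℓ + ε)))
        ≤ ENNReal.ofReal (Real.exp (∑ i : Fin n, gF F (pairs X Y σ ω i))) :=
          ENNReal.ofReal_le_ofReal (Real.exp_le_exp.mpr hle)
      _ = {w | SameOrder w}.indicator (fun w => ∏ i, wF F (w i)) (pairs X Y σ ω) := h1.symm
      _ ≤ S ω := Finset.single_le_sum (f := fun σ : Equiv.Perm (Fin n) =>
          {w | SameOrder w}.indicator (fun w => ∏ i, wF F (w i)) (pairs X Y σ ω))
          (fun _ _ => zero_le) (Finset.mem_univ σ)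
  have hfin : ∫⁻ y, qF F y ∂lebA ≠ ⊤ := by rw [hℓ]; exact ENNReal.ofReal_ne_top
  have hmk := mul_meas_ge_le_lintegral₀ (μ := P) hSm.aemeasurable
    (ENNReal.ofReal (Real.exp (n * (ℓ + ε))))
  have hfm := first_moment_sample h hF hfin n
  have hpos : ENNReal.ofReal (Real.exp (n * (ℓ + ε))) ≠ 0 := by
    rw [Ne, ENNReal.ofReal_eq_zero, not_le]
    exact Real.exp_pos _
  have h2 : P {ω | ENNReal.ofReal (Real.exp (n * (ℓ + ε))) ≤ S ω}
      ≤ ENNReal.ofReal (Real.exp (-ε)) ^ n := by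
    have h3 : ENNReal.ofReal (Real.exp (n * (ℓ + ε)))
        * P {ω | ENNReal.ofReal (Real.exp (n * (ℓ + ε))) ≤ S ω}
        ≤ ENNReal.ofReal (Real.exp (n * (ℓ + ε))) * ENNReal.ofReal (Real.exp (-ε)) ^ n := by
      refine (hmk.trans hfm).trans (le_of_eq ?_)
      rw [hℓ, ← ENNReal.ofReal_pow (Real.exp_pos _).le, ← ENNReal.ofReal_pow (Real.exp_pos _).le,
        ← ENNReal.ofReal_mul (Real.exp_pos _).le]
      congr 1
      rw [← Real.exp_nat_mul, ← Real.exp_nat_mul, ← Real.exp_add]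
      congr 1
      ring
    exact (ENNReal.mul_le_mul_iff_right hpos ENNReal.ofReal_ne_top).mp h3
  exact (measure_mono hsub).trans h2

theorem eventually_lt (h : IsSample P X Y) {F : ℝ × ℝ × ℝ → ℝ} (hF : Measurable F) {ℓ : ℝ}
    (hℓ : ∫⁻ y, qF F y ∂lebA = ENNReal.ofReal (Real.exp ℓ)) {ε : ℝ} (hε : 0 < ε) :
    ∀ᵐ ω ∂P, ∀ᶠ n in atTop, ω ∉ badEvent X Y F (ℓ + ε) n := by
  apply ae_eventually_notMem
  have h1 : ∑' n, P (badEvent X Y F (ℓ + ε) n) ≤ ∑' n : ℕ, ENNReal.ofReal (Real.exp (-ε)) ^ n :=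
    ENNReal.tsum_le_tsum (fun n => badEvent_le h hF hℓ ε n)
  refine ne_top_of_le_ne_top ?_ h1
  rw [ENNReal.tsum_geometric]
  have h2 : ENNReal.ofReal (Real.exp (-ε)) < 1 := by
    rw [← ENNReal.ofReal_one]
    apply (ENNReal.ofReal_lt_ofReal_iff one_pos).mpr
    rw [← Real.exp_zero]
    exact Real.exp_lt_exp.mpr (by linarith)
  exact ENNReal.inv_ne_top.mpr (tsub_pos_of_lt h2).ne'

end Pool.Agent.H96.OT
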